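import Pool.Agent.Kob.Domain

open Set MeasureTheory Filter Metric
open scoped ENNReal Topology ComplexConjugate

namespace Pool.Agent.Kob

variable {m N : ℕ}

/-- The centres `(e^{-t}, 0, …, 0)`. -/
noncomputable def ctr (m N : ℕ) (t : ℝ) : Fin (m + 1) → ℂ := Psi m N (-(t : ℂ), 0)

lemma ctr_zero (t : ℝ) : ctr m N t 0 = Complex.exp (-(t : ℂ)) := rfl

lemma norm_ctr_zero (t : ℝ) : ‖ctr m N t 0‖ = Real.exp (-t) := by
  rw [ctr, norm_Psi_zero]; simp

lemma ctr_mem {t : ℝ} (ht : 0 < t) : ctr m N t ∈ dom m N :=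
  Psi_mem (by simpa using ht) (by simp)

lemma outer_containment {r t : ℝ} (hr : 0 < r) (ht : 0 < t) {w : Fin (m + 1) → ℂ}
    (hw : w ∈ kobayashiBall (dom m N) (ctr m N t) r) :
    Real.exp (-(t * Real.exp (2 * r))) < ‖w 0‖ ∧ ‖w 0‖ < Real.exp (-(t * Real.exp (-(2 * r)))) := by
  obtain ⟨hwΩ, hk⟩ := hw
  have h1 := (dom_dist_hlog (m := m) (N := N) (ctr m N t) w).trans_lt hk
  rw [ENNReal.ofReal_lt_ofReal_iff hr, abs_lt] at h1
  obtain ⟨h2, h3⟩ := h1
  have e1 : hlog (ctr m N t 0) = 1 / 2 * Real.log t := by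
    unfold hlog
    rw [norm_ctr_zero, Real.log_exp, neg_neg]
  have hT : 0 < -Real.log ‖w 0‖ := by
    have := Real.log_neg hwΩ.1 hwΩ.2.1
    linarith
  have e2 : hlog (w 0) = 1 / 2 * Real.log (-Real.log ‖w 0‖) := rfl
  rw [e1, e2] at h2 h3
  constructor
  · rw [← Real.lt_log_iff_exp_lt hwΩ.1]
    have h4 : Real.log (-Real.log ‖w 0‖) < Real.log t + 2 * r := by linarith
    rw [Real.log_lt_iff_lt_exp hT, Real.exp_add, Real.exp_log ht] at h4
    linarith
  · rw [← Real.log_lt_iff_lt_exp hwΩ.1]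
    have h4 : Real.log t + -(2 * r) < Real.log (-Real.log ‖w 0‖) := by linarith
    rw [Real.lt_log_iff_exp_lt hT, Real.exp_add, Real.exp_log ht] at h4
    linarith

lemma re_cayley_pos {w : ℂ} (hw : ‖w‖ < 1) : 0 < ((1 + w) / (1 - w)).re := by
  have hne : 1 - w ≠ 0 := by
    intro h
    have : w = 1 := by linear_combination -h
    rw [this] at hw
    simp at hw
  have hpos : 0 < Complex.normSq (1 - w) := Complex.normSq_pos.2 hne
  rw [Complex.div_re, ← add_div]
  apply div_pos _ hpos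
  have h1 : ‖w‖ ^ 2 < 1 := by have := norm_nonneg w; nlinarith
  rw [← Complex.normSq_eq_norm_sq, Complex.normSq_apply] at h1
  simp
  nlinarith

lemma metric_Psi_le {q q' : ℂ × (Fin m → ℂ)} {ρ : ℝ} (hρ : 0 < ρ) (h1 : q.1.re < 0)
    (h2 : ‖q'.1‖ ≤ 2 * ρ * (-q.1.re)) (h3 : ∀ j, ‖q.2 j‖ ≤ 1 / 2) (h4 : ∀ j, ‖q'.2 j‖ ≤ ρ / 2) :
    kobayashiMetric (dom m N) (Psi m N q) (fderiv ℂ (Psi m N) q q') ≤ ENNReal.ofReal ρ := by
  set x : ℝ := q.1.re with hx
  set a : ℂ := q'.1 / ((2 * ρ * x : ℝ) : ℂ) with ha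
  have hden : 0 < 2 * ρ * (-x) := by nlinarith
  have hxne : ((2 * ρ * x : ℝ) : ℂ) ≠ 0 := by
    rw [Complex.ofReal_ne_zero]; nlinarith
  have ha1 : ‖a‖ ≤ 1 := by
    rw [ha, norm_div, Complex.norm_real, Real.norm_eq_abs]
    have : |2 * ρ * x| = 2 * ρ * (-x) := by
      rw [abs_of_neg (by nlinarith)]; ring
    rw [this, div_le_one hden]
    exact h2
  have haw : ∀ w : ℂ, ‖w‖ < 1 → ‖a * w‖ < 1 := by
    intro w hw
    rw [norm_mul]
    have := norm_nonneg w
    nlinarith
  have hne : ∀ w ∈ ball (0 : ℂ) 1, 1 - a * w ≠ 0 := by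
    intro w hw h
    rw [mem_ball_zero_iff] at hw
    have h5 : a * w = 1 := by linear_combination -h
    have := haw w hw
    rw [h5] at this
    simp at this
  set Q : ℂ → ℂ × (Fin m → ℂ) := fun w =>
    (Complex.I * (q.1.im : ℂ) + (x : ℂ) * ((1 + a * w) / (1 - a * w)),
      q.2 + w • ((ρ : ℂ)⁻¹ • q'.2)) with hQ
  have hQ0 : Q 0 = q := by
    rw [hQ]
    apply Prod.ext
    · simp only [mul_zero, add_zero, sub_zero, div_one, mul_one]
      rw [hx, add_comm, mul_comm Complex.I]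
      exact Complex.re_add_im q.1
    · simp
  have hQd : HasDerivAt Q ((ρ : ℂ)⁻¹ • q') 0 := by
    have hA : HasDerivAt (fun w : ℂ => Complex.I * (q.1.im : ℂ) +
        (x : ℂ) * ((1 + a * w) / (1 - a * w))) ((ρ : ℂ)⁻¹ * q'.1) 0 := by
      have h5 : HasDerivAt (fun w : ℂ => 1 + a * w) a 0 := by
        simpa using ((hasDerivAt_id (0 : ℂ)).const_mul a).const_add 1
      have h6 : HasDerivAt (fun w : ℂ => 1 - a * w) (-a) 0 := by
        simpa using ((hasDerivAt_id (0 : ℂ)).const_mul a).const_sub 1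
      have h7 := ((h5.div h6 (hne 0 (by simp))).const_mul (x : ℂ)).const_add
        (Complex.I * (q.1.im : ℂ))
      refine h7.congr_deriv ?_
      simp only [mul_zero, sub_zero, add_zero, one_pow, div_one, mul_one, one_mul]
      rw [ha]
      have hρc : (ρ : ℂ) ≠ 0 := by exact_mod_cast hρ.ne'
      have hxc : (x : ℂ) ≠ 0 := by exact_mod_cast h1.ne
      push_cast
      field_simp
      ring
    have hB : HasDerivAt (fun w : ℂ => q.2 + w • ((ρ : ℂ)⁻¹ • q'.2)) ((ρ : ℂ)⁻¹ • q'.2) 0 := by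
      have : HasDerivAt (fun w : ℂ => q.2 + w • ((ρ : ℂ)⁻¹ • q'.2))
        ((1 : ℂ) • ((ρ : ℂ)⁻¹ • q'.2)) 0 :=
        ((hasDerivAt_id (0 : ℂ)).smul_const ((ρ : ℂ)⁻¹ • q'.2)).const_add _
      rwa [one_smul] at this
    exact hA.prodMk hB
  have hPd : HasFDerivAt (Psi m N) (fderiv ℂ (Psi m N) q) (Q 0) := by
    rw [hQ0]; exact (differentiable_Psi q).hasFDerivAt
  have hφ := hPd.comp_hasDerivAt 0 hQd
  refine kobayashiMetric_le (φ := Psi m N ∘ Q) hρ ?_ ?_ ?_ ?_
  · apply differentiable_Psi.comp_differentiableOn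
    apply DifferentiableOn.prodMk
    · apply DifferentiableOn.const_add
      apply DifferentiableOn.const_mul
      exact DifferentiableOn.div (by fun_prop) (by fun_prop) hne
    · fun_prop
  · intro w hw
    rw [mem_ball_zero_iff] at hw
    apply Psi_mem
    · show (Complex.I * (q.1.im : ℂ) + (x : ℂ) * ((1 + a * w) / (1 - a * w))).re < 0
      rw [Complex.add_re, Complex.re_ofReal_mul]
      have h5 : (Complex.I * (q.1.im : ℂ)).re = 0 := by simp
      rw [h5, zero_add]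
      exact mul_neg_of_neg_of_pos h1 (re_cayley_pos (haw w hw))
    · intro j
      show ‖q.2 j + w * ((ρ : ℂ)⁻¹ * q'.2 j)‖ < 1
      have h5 : ‖(ρ : ℂ)⁻¹ * q'.2 j‖ ≤ 1 / 2 := by
        rw [norm_mul, norm_inv, Complex.norm_real, Real.norm_eq_abs, abs_of_pos hρ,
          inv_mul_le_iff₀ hρ]
        linarith [h4 j]
      calc ‖q.2 j + w * ((ρ : ℂ)⁻¹ * q'.2 j)‖ ≤ ‖q.2 j‖ + ‖w * ((ρ : ℂ)⁻¹ * q'.2 j)‖ :=
            norm_add_le _ _
        _ = ‖q.2 j‖ + ‖w‖ * ‖(ρ : ℂ)⁻¹ * q'.2 j‖ := by rw [norm_mul w]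
        _ ≤ 1 / 2 + ‖w‖ * (1 / 2) :=
            add_le_add (h3 j) (mul_le_mul_of_nonneg_left h5 (norm_nonneg _))
        _ < 1 := by linarith
  · show Psi m N (Q 0) = Psi m N q
    rw [hQ0]
  · rw [hφ.deriv, map_smul, smul_smul, mul_inv_cancel₀ (by exact_mod_cast hρ.ne'), one_smul]

lemma inner_containment {r r' ρ c t : ℝ} (hr' : 0 < r') (hρr' : r' < ρ) (hρr : ρ < r)
    (hc : c ≤ 1 / 2) (hcρ : c ≤ ρ / 2) (ht : 0 < t)
    (htπ : Real.pi ≤ 2 * (ρ - r') * t * Real.exp (-(2 * r'))) {w : Fin (m + 1) → ℂ}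
    (h1 : Real.exp (-t) ≤ ‖w 0‖) (h2 : ‖w 0‖ ≤ Real.exp (-(t * Real.exp (-(2 * r')))))
    (h3 : ∀ j : Fin m, ‖w j.succ‖ ≤ c * ‖w 0‖ ^ N) :
    w ∈ kobayashiBall (dom m N) (ctr m N t) r := by
  have h0 : 0 < ‖w 0‖ := (Real.exp_pos _).trans_le h1
  have hw0 : w 0 ≠ 0 := norm_pos_iff.1 h0
  set T := -Real.log ‖w 0‖ with hT
  have hT1 : T ≤ t := by
    rw [← Real.le_log_iff_exp_le h0] at h1; linarith
  have hT2 : t * Real.exp (-(2 * r')) ≤ T := by
    rw [← Real.log_le_iff_le_exp h0] at h2; linarith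
  have hTpos : 0 < T := lt_of_lt_of_le (by positivity) hT2
  set θ := Complex.arg (w 0) with hθ
  set α := Real.log (t / T) with hα
  have hα0 : 0 ≤ α := Real.log_nonneg ((one_le_div hTpos).2 hT1)
  have hα1 : α ≤ 2 * r' := by
    rw [hα, Real.log_le_iff_le_exp (by positivity), div_le_iff₀ hTpos]
    have := mul_le_mul_of_nonneg_left hT2 (Real.exp_pos (2 * r')).le
    calc t = Real.exp (2 * r') * (t * Real.exp (-(2 * r'))) := by
          rw [Real.exp_neg]; field_simp
      _ ≤ Real.exp (2 * r') * T := this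
  have hTα : t * Real.exp (-(α * 1)) = T := by
    rw [mul_one, Real.exp_neg, hα, Real.exp_log (by positivity)]
    field_simp
  set u : Fin m → ℂ := fun j => w j.succ / w 0 ^ N with hu
  have huc : ∀ j, ‖u j‖ ≤ c := by
    intro j
    rw [hu]
    simp only
    rw [norm_div, norm_pow, div_le_iff₀ (pow_pos h0 N)]
    exact h3 j
  set q : ℝ → ℂ × (Fin m → ℂ) := fun s =>
    (((-(t * Real.exp (-(α * s))) : ℝ) : ℂ) + ((θ * s : ℝ) : ℂ) * Complex.I, (s : ℂ) • u) with hq
  set q' : ℝ → ℂ × (Fin m → ℂ) := fun s =>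
    (((t * (Real.exp (-(α * s)) * α) : ℝ) : ℂ) + ((θ : ℝ) : ℂ) * Complex.I, u) with hq'
  have hqd : ∀ s, HasDerivAt q (q' s) s := by
    intro s
    have e1 : HasDerivAt (fun s : ℝ => -(t * Real.exp (-(α * s))))
        (t * (Real.exp (-(α * s)) * α)) s := by
      have h5 : HasDerivAt (fun s : ℝ => -(α * s)) (-α) s := by
        have h := ((hasDerivAt_id s).const_mul α).neg
        rw [mul_one] at h
        exact h
      have h6 := ((h5.exp).const_mul t).neg
      refine h6.congr_deriv ?_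
      ring
    have e2 : HasDerivAt (fun s : ℝ => θ * s) θ s := by
      simpa using (hasDerivAt_id s).const_mul θ
    have e3 : HasDerivAt (fun s : ℝ => (s : ℂ) • u) u s := by
      have : HasDerivAt (fun s : ℝ => (s : ℂ)) ((1 : ℝ) : ℂ) s := (hasDerivAt_id s).ofReal_comp
      simpa using this.smul_const u
    exact (e1.ofReal_comp.add (e2.ofReal_comp.mul_const Complex.I)).prodMk e3
  have hqre : ∀ s, (q s).1.re = -(t * Real.exp (-(α * s))) := by
    intro s
    simp only [hq]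
    rw [Complex.add_re, Complex.ofReal_re, Complex.re_ofReal_mul]
    simp
  have hγd : ∀ s, HasDerivAt (fun s => Psi m N (q s)) (fderiv ℂ (Psi m N) (q s) (q' s)) s := by
    intro s
    have h5 : HasFDerivAt (Psi m N) (fderiv ℂ (Psi m N) (q s)) (q s) :=
      (differentiable_Psi (q s)).hasFDerivAt
    exact (h5.restrictScalars ℝ).comp_hasDerivAt s (hqd s)
  have hq_cd : ContDiff ℝ 1 q := by
    have a1 : ContDiff ℝ 1 (fun s : ℝ => -(t * Real.exp (-(α * s)))) := by fun_prop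
    have a2 : ContDiff ℝ 1 (fun s : ℝ => θ * s) := by fun_prop
    rw [hq]
    apply ContDiff.prodMk
    · apply ContDiff.add
      · exact Complex.ofRealCLM.contDiff.comp a1
      · exact (Complex.ofRealCLM.contDiff.comp a2).mul contDiff_const
    · exact Complex.ofRealCLM.contDiff.smul contDiff_const
  have hγcd : ContDiff ℝ 1 (fun s => Psi m N (q s)) :=
    (contDiff_Psi.restrict_scalars ℝ).comp hq_cd
  have hqneg : ∀ s, (q s).1.re < 0 := by
    intro s
    rw [hqre]
    have := Real.exp_pos (-(α * s))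
    have : 0 < t * Real.exp (-(α * s)) := by positivity
    linarith
  have hq2 : ∀ s ∈ Icc (0 : ℝ) 1, ∀ j, ‖(q s).2 j‖ ≤ 1 / 2 := by
    intro s hs j
    show ‖(s : ℂ) * u j‖ ≤ 1 / 2
    rw [norm_mul, Complex.norm_real, Real.norm_eq_abs, abs_of_nonneg hs.1]
    have h5 := huc j
    have h6 := norm_nonneg (u j)
    have h7 := hs.1
    have h8 := hs.2
    nlinarith
  have hmem : ∀ s ∈ Icc (0 : ℝ) 1, Psi m N (q s) ∈ dom m N := by
    intro s hs
    exact Psi_mem (hqneg s) (fun j => (hq2 s hs j).trans_lt (by norm_num))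
  have hF : ∀ s ∈ Ioo (0 : ℝ) 1, kobayashiMetric (dom m N) (Psi m N (q s))
      (deriv (fun s => Psi m N (q s)) s) ≤ ENNReal.ofReal ρ := by
    intro s hs
    rw [(hγd s).deriv]
    apply metric_Psi_le (hr'.trans hρr') (hqneg s)
    · rw [hqre, neg_neg]
      have h5 : ‖(q' s).1‖ ≤ t * (Real.exp (-(α * s)) * α) + Real.pi := by
        simp only [hq']
        refine (norm_add_le _ _).trans ?_
        apply add_le_add
        · rw [Complex.norm_real, Real.norm_eq_abs, abs_of_nonneg (by positivity)]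
        · rw [norm_mul, Complex.norm_real, Complex.norm_I, mul_one]
          exact Complex.abs_arg_le_pi _
      refine h5.trans ?_
      have h6 : Real.exp (-(2 * r')) ≤ Real.exp (-(α * s)) := by
        apply Real.exp_le_exp.2
        have := hs.1
        have := hs.2
        nlinarith
      have h7 : 0 < t * Real.exp (-(α * s)) := by positivity
      have h8 : Real.pi ≤ 2 * (ρ - r') * t * Real.exp (-(α * s)) := by
        refine htπ.trans ?_
        apply mul_le_mul_of_nonneg_left h6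
        have : 0 < ρ - r' := by linarith
        positivity
      nlinarith
    · exact hq2 s (Ioo_subset_Icc_self hs)
    · intro j
      exact (huc j).trans hcρ
  have hdist := kobayashiDist_le_of_curve (Ω := dom m N) (γ := fun s => Psi m N (q s))
    hγcd.contDiffOn hmem hF
  have e0 : Psi m N (q 0) = ctr m N t := by
    rw [ctr]
    congr 1
    apply Prod.ext
    · simp [hq]
    · simp [hq]
  have e1 : Psi m N (q 1) = w := by
    have h5 := exists_Psi (m := m) (N := N) h0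
    rw [← h5]
    congr 1
    apply Prod.ext
    · simp only [hq]
      rw [hTα, hT, neg_neg, mul_one]
      apply Complex.ext
      · simp [Complex.log_re]
      · simp [Complex.log_im, hθ]
    · simp [hq, hu]
  simp only [e0, e1] at hdist
  refine ⟨?_, hdist.trans_lt ?_⟩
  · rw [← e1]; exact hmem 1 (by simp)
  · rw [ENNReal.ofReal_lt_ofReal_iff (by linarith)]; exact hρr

end Pool.Agent.Kob
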