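import Pool.Agent.Kob.Dist

open Set MeasureTheory Filter Metric
open scoped ENNReal Topology ComplexConjugate

namespace Pool.Agent.Kob

variable {n : ℕ} {Ω : Set (Fin n → ℂ)}

lemma fderiv_comp_real (hΩ : IsOpen Ω) {g : (Fin n → ℂ) → ℂ} (hg : ContDiffOn ℂ 1 g Ω)
    {h : ℂ → ℝ} {U : Set ℂ} (hU : IsOpen U) (hgU : MapsTo g Ω U) (hh : ContDiffOn ℝ 1 h U)
    {z : Fin n → ℂ} (hz : z ∈ Ω) (v : Fin n → ℂ) :
    fderiv ℝ (h ∘ g) z v = fderiv ℝ h (g z) (fderiv ℂ g z v) := by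
  have h1 : HasFDerivAt g (fderiv ℂ g z) z :=
    ((hg.differentiableOn one_ne_zero).differentiableAt (hΩ.mem_nhds hz)).hasFDerivAt
  have h2 : HasFDerivAt h (fderiv ℝ h (g z)) (g z) :=
    ((hh.differentiableOn one_ne_zero).differentiableAt (hU.mem_nhds (hgU hz))).hasFDerivAt
  have h3 := h2.comp z (h1.restrictScalars ℝ)
  rw [h3.fderiv]
  rfl

lemma contDiffOn_comp_real {g : (Fin n → ℂ) → ℂ} (hg : ContDiffOn ℂ 1 g Ω)
    {h : ℂ → ℝ} {U : Set ℂ} (hgU : MapsTo g Ω U) (hh : ContDiffOn ℝ 1 h U) :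
    ContDiffOn ℝ 1 (h ∘ g) Ω :=
  hh.comp (hg.restrict_scalars ℝ) hgU

/-- The function `½ log (- log |w|)`. -/
noncomputable def hlog (w : ℂ) : ℝ := 1 / 2 * Real.log (-Real.log ‖w‖)

/-- The function `-½ log (1 - |w|²)`. -/
noncomputable def hdisc (w : ℂ) : ℝ := -(1 / 2 * Real.log (1 - ‖w‖ ^ 2))

lemma hlog_contDiffOn : ContDiffOn ℝ 1 hlog {w : ℂ | w ≠ 0 ∧ ‖w‖ < 1} := by
  intro w hw
  apply ContDiffAt.contDiffWithinAt
  obtain ⟨h0, h1⟩ := hw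
  have h2 : ContDiffAt ℝ 1 (fun w : ℂ => ‖w‖) w := contDiffAt_norm ℝ h0
  have h3 : ContDiffAt ℝ 1 (fun w : ℂ => Real.log ‖w‖) w := h2.log (norm_ne_zero_iff.2 h0)
  have h4 : -Real.log ‖w‖ ≠ 0 := by
    have := Real.log_neg (norm_pos_iff.2 h0) h1
    linarith
  exact contDiffAt_const.mul (h3.neg.log h4)

lemma hlog_fderiv {w : ℂ} (h0 : w ≠ 0) (h1 : ‖w‖ < 1) (ξ : ℂ) :
    |fderiv ℝ hlog w ξ| ≤ ‖ξ‖ / (2 * ‖w‖ * (-Real.log ‖w‖)) := by
  have hw : 0 < ‖w‖ := norm_pos_iff.2 h0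
  have hL : 0 < -Real.log ‖w‖ := by have := Real.log_neg hw h1; linarith
  have e1 : hlog = fun w : ℂ => 1 / 2 * Real.log (-(1 / 2 * Real.log (‖w‖ ^ 2))) := by
    funext w
    unfold hlog
    rw [Real.log_pow]
    push_cast
    congr 2
    ring
  have h2 : HasFDerivAt (fun w : ℂ => ‖w‖ ^ 2) ((2 : ℝ) • (innerSL ℝ w)) w := by
    have := (hasStrictFDerivAt_norm_sq w).hasFDerivAt
    rwa [two_nsmul, ← two_smul ℝ] at this
  have h3 := h2.log (by positivity)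
  have h4 : -(1 / 2 * Real.log (‖w‖ ^ 2)) = -Real.log ‖w‖ := by
    rw [Real.log_pow]; push_cast; ring
  have h5 : HasFDerivAt (fun w : ℂ => 1 / 2 * Real.log (-(1 / 2 * Real.log (‖w‖ ^ 2)))) _ w :=
    (((h3.const_mul (1 / 2)).neg).log
      (show -(1 / 2 * Real.log (‖w‖ ^ 2)) ≠ 0 by rw [h4]; exact hL.ne')).const_mul (1 / 2)
  rw [e1, h5.fderiv]
  have h6 : (-fun y : ℂ => 1 / 2 * Real.log (‖y‖ ^ 2)) w = -Real.log ‖w‖ := h4
  rw [h6]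
  have h7 : ((1 / 2 : ℝ) • (-Real.log ‖w‖)⁻¹ • -((1 / 2 : ℝ) • (‖w‖ ^ 2)⁻¹ • (2 : ℝ) •
      (innerSL ℝ) w)) ξ = -(1 / 2 * (-Real.log ‖w‖)⁻¹ * (‖w‖ ^ 2)⁻¹ * inner ℝ w ξ) := by
    simp only [FunLike.coe_smul, Pi.smul_apply, neg_apply, smul_eq_mul,
      innerSL_apply_apply]
    ring
  rw [h7, abs_neg, abs_mul]
  have h8 : |1 / 2 * (-Real.log ‖w‖)⁻¹ * (‖w‖ ^ 2)⁻¹| = 1 / 2 * (-Real.log ‖w‖)⁻¹ * (‖w‖ ^ 2)⁻¹ :=
    abs_of_pos (by positivity)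
  rw [h8]
  have h9 := abs_real_inner_le_norm w ξ
  calc 1 / 2 * (-Real.log ‖w‖)⁻¹ * (‖w‖ ^ 2)⁻¹ * |inner ℝ w ξ|
      ≤ 1 / 2 * (-Real.log ‖w‖)⁻¹ * (‖w‖ ^ 2)⁻¹ * (‖w‖ * ‖ξ‖) :=
        mul_le_mul_of_nonneg_left h9 (by positivity)
    _ = ‖ξ‖ / (2 * ‖w‖ * (-Real.log ‖w‖)) := by field_simp

lemma hdisc_contDiffOn : ContDiffOn ℝ 1 hdisc (ball 0 1) := by
  intro w hw
  apply ContDiffAt.contDiffWithinAt
  rw [mem_ball_zero_iff] at hw
  have h2 : ContDiffAt ℝ 1 (fun w : ℂ => 1 - ‖w‖ ^ 2) w :=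
    contDiffAt_const.sub ((contDiff_norm_sq ℝ).contDiffAt)
  have h4 : 1 - ‖w‖ ^ 2 ≠ 0 := by
    have := norm_nonneg w
    nlinarith
  exact (contDiffAt_const.mul (h2.log h4)).neg

lemma hdisc_fderiv {w : ℂ} (h1 : ‖w‖ < 1) (ξ : ℂ) :
    |fderiv ℝ hdisc w ξ| ≤ ‖ξ‖ / (1 - ‖w‖ ^ 2) := by
  have hL : 0 < 1 - ‖w‖ ^ 2 := by have := norm_nonneg w; nlinarith
  have h2 : HasFDerivAt (fun w : ℂ => ‖w‖ ^ 2) ((2 : ℝ) • (innerSL ℝ w)) w := by
    have := (hasStrictFDerivAt_norm_sq w).hasFDerivAt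
    rwa [two_nsmul, ← two_smul ℝ] at this
  have h5 : HasFDerivAt hdisc _ w :=
    (((h2.const_sub 1).log hL.ne').const_mul (1 / 2)).neg
  rw [h5.fderiv]
  have h7 : (-((1 / 2 : ℝ) • (1 - ‖w‖ ^ 2)⁻¹ • -((2 : ℝ) • (innerSL ℝ) w))) ξ =
      (1 - ‖w‖ ^ 2)⁻¹ * inner ℝ w ξ := by
    simp only [FunLike.coe_smul, Pi.smul_apply, neg_apply, smul_eq_mul,
      innerSL_apply_apply]
    ring
  rw [h7, abs_mul, abs_of_pos (inv_pos.2 hL)]
  have h9 := abs_real_inner_le_norm w ξ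
  have h10 : |inner ℝ w ξ| ≤ ‖ξ‖ := h9.trans (by
    have := norm_nonneg ξ
    nlinarith)
  calc (1 - ‖w‖ ^ 2)⁻¹ * |inner ℝ w ξ|
      ≤ (1 - ‖w‖ ^ 2)⁻¹ * ‖ξ‖ :=
        mul_le_mul_of_nonneg_left h10 (by positivity)
    _ = ‖ξ‖ / (1 - ‖w‖ ^ 2) := by rw [div_eq_inv_mul]

lemma dist_ge_hlog (hΩ : IsOpen Ω) {g : (Fin n → ℂ) → ℂ} (hg : ContDiffOn ℂ 1 g Ω)
    (hm : ∀ z ∈ Ω, ‖g z‖ < 1) (hm0 : ∀ z ∈ Ω, g z ≠ 0) (z w : Fin n → ℂ) :
    ENNReal.ofReal |hlog (g w) - hlog (g z)| ≤ kobayashiDist Ω z w := by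
  have hU : IsOpen {w : ℂ | w ≠ 0 ∧ ‖w‖ < 1} :=
    isOpen_ne.inter (isOpen_lt continuous_norm continuous_const)
  have hmaps : MapsTo g Ω {w : ℂ | w ≠ 0 ∧ ‖w‖ < 1} := fun z hz => ⟨hm0 z hz, hm z hz⟩
  refine dist_bound hΩ (u := hlog ∘ g) (contDiffOn_comp_real hg hmaps hlog_contDiffOn) ?_ z w
  intro x hx v
  rw [fderiv_comp_real hΩ hg hU hmaps hlog_contDiffOn hx v]
  refine (ENNReal.ofReal_le_ofReal (hlog_fderiv (hm0 x hx) (hm x hx) _)).trans ?_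
  exact punctured_bound hΩ (hg.differentiableOn one_ne_zero) hm hm0 hx

lemma dist_ge_hdisc (hΩ : IsOpen Ω) {g : (Fin n → ℂ) → ℂ} (hg : ContDiffOn ℂ 1 g Ω)
    (hm : ∀ z ∈ Ω, ‖g z‖ < 1) (z w : Fin n → ℂ) :
    ENNReal.ofReal |hdisc (g w) - hdisc (g z)| ≤ kobayashiDist Ω z w := by
  have hmaps : MapsTo g Ω (ball 0 1) := fun z hz => by simpa using hm z hz
  refine dist_bound hΩ (u := hdisc ∘ g) (contDiffOn_comp_real hg hmaps hdisc_contDiffOn) ?_ z w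
  intro x hx v
  rw [fderiv_comp_real hΩ hg isOpen_ball hmaps hdisc_contDiffOn hx v]
  refine (ENNReal.ofReal_le_ofReal (hdisc_fderiv (hm x hx) _)).trans ?_
  exact disc_bound hΩ (hg.differentiableOn one_ne_zero) hm hx

lemma dist_ge_clm (hΩ : IsOpen Ω) {g : (Fin n → ℂ) → ℂ} (hg : ContDiffOn ℂ 1 g Ω)
    (hm : ∀ z ∈ Ω, ‖g z‖ < 1) (L : ℂ →L[ℝ] ℝ) (hL : ∀ ξ, |L ξ| ≤ ‖ξ‖) (z w : Fin n → ℂ) :
    ENNReal.ofReal |L (g w) - L (g z)| ≤ kobayashiDist Ω z w := by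
  have hmaps : MapsTo g Ω univ := fun z hz => mem_univ _
  have hL1 : ContDiffOn ℝ 1 L univ := L.contDiff.contDiffOn
  refine dist_bound hΩ (u := L ∘ g) (contDiffOn_comp_real hg hmaps hL1) ?_ z w
  intro x hx v
  rw [fderiv_comp_real hΩ hg isOpen_univ hmaps hL1 hx v]
  rw [L.fderiv]
  refine (ENNReal.ofReal_le_ofReal ?_).trans
    (disc_bound hΩ (hg.differentiableOn one_ne_zero) hm hx)
  refine (hL _).trans ?_
  have h1 : 0 < 1 - ‖g x‖ ^ 2 := by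
    have := norm_nonneg (g x)
    have := hm x hx
    nlinarith
  rw [le_div_iff₀ h1]
  have := norm_nonneg (fderiv ℂ g x v)
  have := sq_nonneg ‖g x‖
  nlinarith

/-- The Kobayashi distance dominates the Euclidean one (up to a factor 2) for domains in the
unit polydisc. -/
lemma dist_ge_norm (hΩ : IsOpen Ω) (hm : ∀ z ∈ Ω, ∀ i, ‖z i‖ < 1) (z w : Fin n → ℂ) :
    ENNReal.ofReal ‖w - z‖ ≤ 2 * kobayashiDist Ω z w := by
  by_cases htop : kobayashiDist Ω z w = ⊤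
  · rw [htop]; simp
  have key : ‖w - z‖ ≤ 2 * (kobayashiDist Ω z w).toReal := by
    rw [pi_norm_le_iff_of_nonneg (by positivity)]
    intro i
    have hg : ContDiffOn ℂ 1 (fun z : Fin n → ℂ => z i) Ω := (contDiff_apply ℂ ℂ i).contDiffOn
    have h1 := dist_ge_clm hΩ hg (fun z hz => hm z hz i) Complex.reCLM
      (fun ξ => Complex.abs_re_le_norm ξ) z w
    have h2 := dist_ge_clm hΩ hg (fun z hz => hm z hz i) Complex.imCLM
      (fun ξ => Complex.abs_im_le_norm ξ) z w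
    rw [ENNReal.ofReal_le_iff_le_toReal htop] at h1 h2
    have h3 := Complex.norm_le_abs_re_add_abs_im (w i - z i)
    simp only [Complex.reCLM_apply, Complex.imCLM_apply] at h1 h2
    rw [Complex.sub_re, Complex.sub_im] at h3
    rw [Pi.sub_apply]
    linarith
  calc ENNReal.ofReal ‖w - z‖ ≤ ENNReal.ofReal (2 * (kobayashiDist Ω z w).toReal) :=
        ENNReal.ofReal_le_ofReal key
    _ = 2 * kobayashiDist Ω z w := by
        rw [ENNReal.ofReal_mul (by norm_num), ENNReal.ofReal_toReal htop]; simp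

/-- Upper bound along a straight segment. -/
lemma dist_le_segment {x z : Fin n → ℂ} {δ ρ : ℝ} (hδ : 0 < δ) (hball : ball z δ ⊆ Ω)
    (hx : ‖z - x‖ < δ / 2) (hρ : 0 < ρ) (h : 2 * ‖z - x‖ / δ ≤ ρ) :
    kobayashiDist Ω x z ≤ ENNReal.ofReal ρ := by
  set d := z - x with hd
  have hdρ : ‖d‖ ≤ ρ * (δ / 2) := by
    rw [div_le_iff₀ hδ] at h
    linarith
  have hγ : ContDiff ℝ 1 (fun s : ℝ => x + s • d) := by fun_prop
  have hin : ∀ s ∈ Icc (0 : ℝ) 1, x + s • d ∈ ball z (δ / 2) := by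
    intro s hs
    rw [mem_ball, dist_eq_norm]
    have h1 : x + s • d - z = (s - 1) • d := by rw [hd, sub_smul]; module
    rw [h1, norm_smul, Real.norm_eq_abs, abs_of_nonpos (by linarith [hs.2])]
    have := norm_nonneg d
    have := hs.1
    nlinarith
  have hres := kobayashiDist_le_of_curve (Ω := Ω) (γ := fun s : ℝ => x + s • d) (ρ := ρ)
    hγ.contDiffOn (fun s hs => hball (ball_subset_ball (by linarith) (hin s hs))) ?_
  · have e0 : x + (0 : ℝ) • d = x := by simp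
    have e1 : x + (1 : ℝ) • d = z := by rw [hd]; module
    simp only [e0, e1] at hres
    exact hres
  · intro s hs
    have hder : deriv (fun s : ℝ => x + s • d) s = d := by
      have : HasDerivAt (fun s : ℝ => x + s • d) ((1 : ℝ) • d) s :=
        ((hasDerivAt_id s).smul_const d).const_add x
      rw [this.deriv, one_smul]
    rw [hder]
    have hcd : HasDerivAt (fun w : ℂ => (x + s • d) + w • ((ρ : ℂ)⁻¹ • d)) ((ρ : ℂ)⁻¹ • d) 0 := by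
      have : HasDerivAt (fun w : ℂ => (x + s • d) + w • ((ρ : ℂ)⁻¹ • d))
        ((1 : ℂ) • ((ρ : ℂ)⁻¹ • d)) 0 :=
        ((hasDerivAt_id (0 : ℂ)).smul_const ((ρ : ℂ)⁻¹ • d)).const_add _
      rwa [one_smul] at this
    refine kobayashiMetric_le (φ := fun w : ℂ => (x + s • d) + w • ((ρ : ℂ)⁻¹ • d)) hρ ?_ ?_ ?_ ?_
    · fun_prop
    · intro w hw
      rw [mem_ball_zero_iff] at hw
      apply hball
      have h1 := hin s (Ioo_subset_Icc_self hs)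
      rw [mem_ball, dist_eq_norm] at h1 ⊢
      have h2 : ‖w • ((ρ : ℂ)⁻¹ • d)‖ ≤ δ / 2 := by
        rw [norm_smul, norm_smul, norm_inv, Complex.norm_real, Real.norm_eq_abs, abs_of_pos hρ]
        have h3 : ρ⁻¹ * ‖d‖ ≤ δ / 2 := by
          rw [inv_mul_le_iff₀ hρ]; exact hdρ
        have h4 : 0 ≤ ρ⁻¹ * ‖d‖ := by positivity
        calc ‖w‖ * (ρ⁻¹ * ‖d‖) ≤ 1 * (ρ⁻¹ * ‖d‖) := mul_le_mul_of_nonneg_right hw.le h4
          _ ≤ δ / 2 := by rw [one_mul]; exact h3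
      calc ‖x + s • d + w • ((ρ : ℂ)⁻¹ • d) - z‖
          = ‖(x + s • d - z) + w • ((ρ : ℂ)⁻¹ • d)‖ := by congr 1; module
        _ ≤ ‖x + s • d - z‖ + ‖w • ((ρ : ℂ)⁻¹ • d)‖ := norm_add_le _ _
        _ < δ := by linarith
    · simp
    · rw [hcd.deriv, smul_smul, mul_inv_cancel₀ (by exact_mod_cast hρ.ne'), one_smul]

/-- Local continuity of the Kobayashi distance. -/
lemma dist_tendsto_zero (hΩ : IsOpen Ω) {z : Fin n → ℂ} (hz : z ∈ Ω) {x : ℕ → Fin n → ℂ}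
    (hx : Tendsto x atTop (𝓝 z)) :
    ∀ ρ : ℝ, 0 < ρ → ∀ᶠ i in atTop, kobayashiDist Ω (x i) z ≤ ENNReal.ofReal ρ := by
  intro ρ hρ
  obtain ⟨δ, hδ, hball⟩ := Metric.isOpen_iff.1 hΩ z hz
  have h1 : 0 < min (δ / 2) (ρ * (δ / 2)) := by positivity
  filter_upwards [hx.eventually (Metric.ball_mem_nhds z h1)] with i hi
  rw [dist_comm, dist_eq_norm] at hi
  have h2 : ‖z - x i‖ < δ / 2 := hi.trans_le (min_le_left _ _)
  have h3 : ‖z - x i‖ < ρ * (δ / 2) := hi.trans_le (min_le_right _ _)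
  refine dist_le_segment hδ hball h2 hρ ?_
  rw [div_le_iff₀ hδ]
  linarith

lemma kobayashiDist_self (hΩ : IsOpen Ω) {z : Fin n → ℂ} (hz : z ∈ Ω) :
    kobayashiDist Ω z z = 0 := by
  obtain ⟨δ, hδ, hball⟩ := Metric.isOpen_iff.1 hΩ z hz
  refine le_antisymm ?_ bot_le
  apply ENNReal.le_of_forall_pos_le_add
  intro ε hε _
  rw [zero_add]
  have := dist_le_segment (x := z) (z := z) (ρ := ε) hδ hball (by simpa using hδ)
    (by exact_mod_cast hε) (by simp)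
  simpa using this

/-- Finiteness of the Kobayashi distance on connected open sets. -/
lemma kobayashiDist_ne_top (hΩ : IsOpen Ω) (hc : IsPreconnected Ω) {z w : Fin n → ℂ}
    (hz : z ∈ Ω) (hw : w ∈ Ω) : kobayashiDist Ω z w ≠ ⊤ := by
  -- local statement
  have hloc : ∀ x ∈ Ω, ∃ δ > 0, ball x δ ⊆ Ω ∧ ∀ y ∈ ball x δ, kobayashiDist Ω y x ≠ ⊤ := by
    intro x hx
    obtain ⟨δ, hδ, hball⟩ := Metric.isOpen_iff.1 hΩ x hx
    refine ⟨δ / 2, by positivity, (ball_subset_ball (by linarith)).trans hball, ?_⟩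
    intro y hy
    rw [mem_ball, dist_comm, dist_eq_norm] at hy
    have h1 := dist_le_segment (ρ := 1) hδ hball hy one_pos (by
      rw [div_le_iff₀ hδ]; linarith)
    exact ne_top_of_le_ne_top ENNReal.ofReal_ne_top h1
  set S : Set (Fin n → ℂ) := {y | y ∈ Ω ∧ kobayashiDist Ω z y ≠ ⊤} with hS
  set T : Set (Fin n → ℂ) := {y | y ∈ Ω ∧ kobayashiDist Ω z y = ⊤} with hT
  have hSo : IsOpen S := by
    rw [Metric.isOpen_iff]
    rintro x ⟨hx, hx'⟩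
    obtain ⟨δ, hδ, hb, hd⟩ := hloc x hx
    refine ⟨δ, hδ, fun y hy => ⟨hb hy, ?_⟩⟩
    have h1 := kobayashiDist_triangle (Ω := Ω) z x y
    have h2 := hd y hy
    rw [kobayashiDist_symm] at h2
    exact ne_top_of_le_ne_top (ENNReal.add_ne_top.2 ⟨hx', h2⟩) h1
  have hTo : IsOpen T := by
    rw [Metric.isOpen_iff]
    rintro x ⟨hx, hx'⟩
    obtain ⟨δ, hδ, hb, hd⟩ := hloc x hx
    refine ⟨δ, hδ, fun y hy => ⟨hb hy, ?_⟩⟩
    by_contra hne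
    have h1 := kobayashiDist_triangle (Ω := Ω) z y x
    rw [hx'] at h1
    exact ENNReal.add_ne_top.2 ⟨hne, hd y hy⟩ (top_le_iff.1 h1)
  have hdisj : Disjoint S T := by
    rw [Set.disjoint_left]
    rintro x ⟨_, h1⟩ ⟨_, h2⟩
    exact h1 h2
  have hsub : Ω ⊆ S ∪ T := by
    intro x hx
    by_cases h : kobayashiDist Ω z x = ⊤
    · right; exact ⟨hx, h⟩
    · left; exact ⟨hx, h⟩
  have hzS : (Ω ∩ S).Nonempty := ⟨z, hz, hz, by rw [kobayashiDist_self hΩ hz]; simp⟩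
  exact (hc.subset_left_of_subset_union hSo hTo hdisj hsub hzS hw).2

end Pool.Agent.Kob
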