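import Mathlib

open Set MeasureTheory Filter
open scoped ENNReal Topology

namespace Pool.Agent.Kob

variable {n : ℕ}

/-- The infinitesimal Kobayashi metric `F_Ω(z; v)` of a set `Ω` in `ℂⁿ`: the infimum of the
`r > 0` such that `r φ'(0) = v` for some holomorphic map `φ` from the unit disc to `Ω` with
`φ(0) = z`. -/
noncomputable def kobayashiMetric (Ω : Set (Fin n → ℂ)) (z v : Fin n → ℂ) : ℝ≥0∞ :=
  sInf {a : ℝ≥0∞ | ∃ (r : ℝ) (φ : ℂ → Fin n → ℂ), 0 < r ∧ a = ENNReal.ofReal r ∧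
    DifferentiableOn ℂ φ (Metric.ball 0 1) ∧ MapsTo φ (Metric.ball 0 1) Ω ∧ φ 0 = z ∧
    (r : ℂ) • deriv φ 0 = v}

/-- `γ : [0, 1] → ℂⁿ` is a piecewise `C¹` curve. -/
def IsPiecewiseC1 (γ : ℝ → Fin n → ℂ) : Prop :=
  ∃ (m : ℕ) (t : ℕ → ℝ), t 0 = 0 ∧ t m = 1 ∧ (∀ i < m, t i < t (i + 1)) ∧
    ∀ i < m, ContDiffOn ℝ 1 γ (Icc (t i) (t (i + 1)))

/-- The Kobayashi length of a curve. -/
noncomputable def kobayashiLength (Ω : Set (Fin n → ℂ)) (γ : ℝ → Fin n → ℂ) : ℝ≥0∞ :=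
  ∫⁻ t in Ioo (0 : ℝ) 1, kobayashiMetric Ω (γ t) (deriv γ t)

/-- The Kobayashi distance `k_Ω(z, w)`: the infimum of the Kobayashi lengths of the piecewise
`C¹` curves in `Ω` from `z` to `w`. -/
noncomputable def kobayashiDist (Ω : Set (Fin n → ℂ)) (z w : Fin n → ℂ) : ℝ≥0∞ :=
  sInf {ℓ : ℝ≥0∞ | ∃ γ : ℝ → Fin n → ℂ, IsPiecewiseC1 γ ∧ (∀ t ∈ Icc (0 : ℝ) 1, γ t ∈ Ω) ∧
    γ 0 = z ∧ γ 1 = w ∧ ℓ = kobayashiLength Ω γ}

/-- The Kobayashi ball `B(z, r)`. -/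
def kobayashiBall (Ω : Set (Fin n → ℂ)) (z : Fin n → ℂ) (r : ℝ) : Set (Fin n → ℂ) :=
  {w : Fin n → ℂ | w ∈ Ω ∧ kobayashiDist Ω z w < ENNReal.ofReal r}

/-- `(Ω, k_Ω)` is a complete metric space. -/
def KobayashiComplete (Ω : Set (Fin n → ℂ)) : Prop :=
  ∃ d : MetricSpace Ω,
    (∀ z w : Ω, ENNReal.ofReal (@dist Ω d.toDist z w) = kobayashiDist Ω z w) ∧
    @CompleteSpace Ω d.toPseudoMetricSpace.toUniformSpace

/-- The sub-mean value inequality on Kobayashi balls: for every holomorphic `f` on `Ω`, every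
`z ∈ Ω` and every `0 < r < r₀`, `|f(z)|^p ≤ (C / V(B(z,r))) ∫_{B(z,r)} |f|^p dV`. -/
def SubMeanValue (Ω : Set (Fin n → ℂ)) (p C r₀ : ℝ) : Prop :=
  ∀ f : (Fin n → ℂ) → ℂ, DifferentiableOn ℂ f Ω → ∀ z ∈ Ω, ∀ r : ℝ, 0 < r → r < r₀ →
    ENNReal.ofReal (‖f z‖ ^ p) ≤
      ENNReal.ofReal C / volume (kobayashiBall Ω z r) *
        ∫⁻ w in kobayashiBall Ω z r, ENNReal.ofReal (‖f w‖ ^ p)

end Pool.Agent.Kob
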