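import Pool.Agent.Kob.Metric

open Set MeasureTheory Filter Metric
open scoped ENNReal Topology ComplexConjugate

namespace Pool.Agent.Kob

variable {n : ℕ} {Ω : Set (Fin n → ℂ)}

lemma kobayashiMetric_smul_le {z v : Fin n → ℂ} {c : ℝ} (hc : c ≠ 0) :
    kobayashiMetric Ω z (c • v) ≤ ENNReal.ofReal |c| * kobayashiMetric Ω z v := by
  have hc' : 0 < |c| := abs_pos.2 hc
  have hne : ENNReal.ofReal |c| ≠ 0 := by simpa using hc
  rw [← ENNReal.div_le_iff' hne ENNReal.ofReal_ne_top]
  apply le_sInf
  rintro a ⟨r, φ, hr, rfl, h1, h2, h3, h4⟩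
  rw [ENNReal.div_le_iff' hne ENNReal.ofReal_ne_top, ← ENNReal.ofReal_mul hc'.le]
  set σ : ℝ := c / |c| with hσ
  have hσ1 : |σ| = 1 := by rw [hσ, abs_div, abs_abs, div_self hc'.ne']
  have hσn : ‖(σ : ℂ)‖ = 1 := by rw [Complex.norm_real, Real.norm_eq_abs, hσ1]
  have hmap : MapsTo (fun w : ℂ => (σ : ℂ) * w) (ball 0 1) (ball 0 1) := by
    intro w hw
    rw [mem_ball_zero_iff] at hw ⊢
    rw [norm_mul, hσn, one_mul]; exact hw
  have h0 : (0 : ℂ) ∈ ball (0 : ℂ) 1 := by simp
  have hφ : HasDerivAt φ (deriv φ 0) ((σ : ℂ) * 0) := by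
    rw [mul_zero]
    exact (h1.differentiableAt (isOpen_ball.mem_nhds h0)).hasDerivAt
  have hd : HasDerivAt (fun w : ℂ => (σ : ℂ) * w) (σ : ℂ) 0 := by
    simpa using (hasDerivAt_id (0 : ℂ)).const_mul (σ : ℂ)
  have hcomp := hφ.scomp (0 : ℂ) hd
  refine kobayashiMetric_le (φ := fun w => φ ((σ : ℂ) * w)) (mul_pos hc' hr) ?_ ?_ ?_ ?_
  · exact h1.comp (by fun_prop) hmap
  · exact h2.comp hmap
  · simpa using h3
  · have : deriv (fun w => φ ((σ : ℂ) * w)) 0 = (σ : ℂ) • deriv φ 0 := hcomp.deriv
    rw [this, ← h4, smul_smul]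
    have h5 : (c • ((r : ℂ) • deriv φ 0) : Fin n → ℂ) = ((c : ℂ) * (r : ℂ)) • deriv φ 0 := by
      rw [← smul_smul]; rfl
    rw [h5]
    congr 1
    rw [← Complex.ofReal_mul, ← Complex.ofReal_mul, hσ]
    congr 1
    field_simp

lemma length_reparam {γ : ℝ → Fin n → ℂ} {a b : ℝ} (ha : a ≠ 0) {s : Set ℝ}
    (hs : MeasurableSet s) :
    ∫⁻ x in s, kobayashiMetric Ω (γ (a * x + b)) (deriv (fun y => γ (a * y + b)) x) ≤
    ∫⁻ x in (fun x => a * x + b) '' s, kobayashiMetric Ω (γ x) (deriv γ x) := by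
  rw [lintegral_image_eq_lintegral_abs_deriv_mul (f' := fun _ => a) hs
    (fun x _ => by simpa using (((hasDerivAt_id x).const_mul a).add_const b).hasDerivWithinAt)
    (fun x _ y _ hxy => by
      simp only [add_left_inj] at hxy
      exact mul_left_cancel₀ ha hxy)]
  apply lintegral_mono
  intro x
  have h1 : deriv (fun y => γ (a * y + b)) x = a • deriv γ (a * x + b) := by
    have h2 := deriv_comp_mul_left a (fun z => γ (z + b)) x
    rw [h2]
    rw [deriv_comp_add_const]
  simp only [h1]
  exact kobayashiMetric_smul_le ha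

lemma kobayashiDist_le {z w : Fin n → ℂ} {γ : ℝ → Fin n → ℂ} (h1 : IsPiecewiseC1 γ)
    (h2 : ∀ t ∈ Icc (0 : ℝ) 1, γ t ∈ Ω) (h3 : γ 0 = z) (h4 : γ 1 = w) :
    kobayashiDist Ω z w ≤ kobayashiLength Ω γ :=
  sInf_le ⟨γ, h1, h2, h3, h4, rfl⟩

lemma kobayashiDist_symm_le (z w : Fin n → ℂ) : kobayashiDist Ω w z ≤ kobayashiDist Ω z w := by
  apply le_sInf
  rintro ℓ ⟨γ, ⟨m, t, ht0, htm, hlt, hC⟩, h2, rfl, rfl, rfl⟩
  refine (kobayashiDist_le (γ := fun s => γ (-1 * s + 1)) ?_ ?_ ?_ ?_).trans ?_
  · refine ⟨m, fun i => 1 - t (m - i), by simp [htm], by simp [ht0], ?_, ?_⟩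
    · intro i hi
      have h3 := hlt (m - (i + 1)) (by omega)
      have h4 : m - (i + 1) + 1 = m - i := by omega
      rw [h4] at h3
      simp only
      linarith
    · intro i hi
      have h3 := hC (m - (i + 1)) (by omega)
      have h4 : m - (i + 1) + 1 = m - i := by omega
      rw [h4] at h3
      refine h3.comp (t := Icc (t (m - (i + 1))) (t (m - i))) (f := fun s : ℝ => -1 * s + 1)
        (by fun_prop) ?_
      intro s hs
      constructor
      · have := hs.2; linarith
      · have := hs.1; linarith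
  · intro s hs
    apply h2
    constructor
    · have := hs.2; linarith
    · have := hs.1; linarith
  · norm_num
  · norm_num
  · unfold kobayashiLength
    refine (length_reparam (γ := γ) (a := -1) (b := 1) (by norm_num) measurableSet_Ioo).trans ?_
    apply lintegral_mono_set
    rintro _ ⟨x, hx, rfl⟩
    constructor
    · have := hx.2; simp only; linarith
    · have := hx.1; simp only; linarith

lemma kobayashiDist_symm (z w : Fin n → ℂ) : kobayashiDist Ω z w = kobayashiDist Ω w z :=
  le_antisymm (kobayashiDist_symm_le w z) (kobayashiDist_symm_le z w)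

lemma kobayashiDist_triangle (x y z : Fin n → ℂ) :
    kobayashiDist Ω x z ≤ kobayashiDist Ω x y + kobayashiDist Ω y z := by
  unfold kobayashiDist
  rw [ENNReal.sInf_add]
  apply le_iInf₂
  rintro ℓ₁ ⟨γ₁, ⟨m₁, t₁, ht₁0, ht₁m, hlt₁, hC₁⟩, hγ₁, hx, hy, rfl⟩
  rw [add_comm, ENNReal.sInf_add]
  apply le_iInf₂
  rintro ℓ₂ ⟨γ₂, ⟨m₂, t₂, ht₂0, ht₂m, hlt₂, hC₂⟩, hγ₂, hy', hz, rfl⟩
  rw [add_comm]
  have hm₁ : 0 < m₁ := by
    rcases Nat.eq_zero_or_pos m₁ with h | h
    · rw [h, ht₁0] at ht₁m; norm_num at ht₁m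
    · exact h
  have hmono₁ : ∀ i j, i ≤ j → j ≤ m₁ → t₁ i ≤ t₁ j := by
    intro i j hij
    induction j, hij using Nat.le_induction with
    | base => intro _; exact le_rfl
    | succ k hk ih => intro hkm; exact (ih (by omega)).trans (hlt₁ k (by omega)).le
  have hmono₂ : ∀ i j, i ≤ j → j ≤ m₂ → t₂ i ≤ t₂ j := by
    intro i j hij
    induction j, hij using Nat.le_induction with
    | base => intro _; exact le_rfl
    | succ k hk ih => intro hkm; exact (ih (by omega)).trans (hlt₂ k (by omega)).le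
  set γ : ℝ → Fin n → ℂ := fun s => if s ≤ 1 / 2 then γ₁ (2 * s + 0) else γ₂ (2 * s + (-1)) with hγ
  have hγl : ∀ s ≤ (1 / 2 : ℝ), γ s = γ₁ (2 * s + 0) := fun s hs => by simp only [hγ]; rw [if_pos hs]
  have hγr : ∀ s, (1 / 2 : ℝ) ≤ s → γ s = γ₂ (2 * s + (-1)) := by
    intro s hs
    rcases eq_or_lt_of_le hs with h | h
    · rw [← h, hγl _ le_rfl]
      norm_num
      rw [hy, hy']
    · simp only [hγ]; rw [if_neg (not_le.2 h)]
  refine (kobayashiDist_le (γ := γ) ?_ ?_ ?_ ?_).trans ?_
  · refine ⟨m₁ + m₂, fun i => if i ≤ m₁ then t₁ i / 2 else (1 + t₂ (i - m₁)) / 2,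
      by simp [ht₁0], ?_, ?_, ?_⟩
    · by_cases h : m₂ = 0
      · rw [h, ht₂0] at ht₂m; norm_num at ht₂m
      · simp only
        rw [if_neg (by omega), Nat.add_sub_cancel_left, ht₂m]; norm_num
    · intro i hi
      simp only
      by_cases h : i + 1 ≤ m₁
      · rw [if_pos (by omega), if_pos h]
        have := hlt₁ i (by omega)
        linarith
      · by_cases h' : i ≤ m₁
        · have hi' : i = m₁ := by omega
          rw [if_pos h', if_neg h, hi', ht₁m]
          have h3 := hlt₂ 0 (by omega)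
          have h4 : m₁ + 1 - m₁ = 0 + 1 := by omega
          rw [h4]
          rw [ht₂0] at h3
          linarith
        · rw [if_neg h', if_neg h]
          have h3 := hlt₂ (i - m₁) (by omega)
          have h4 : i + 1 - m₁ = i - m₁ + 1 := by omega
          rw [h4]
          linarith
    · intro i hi
      simp only
      by_cases h : i + 1 ≤ m₁
      · rw [if_pos (by omega), if_pos h]
        have h5 : t₁ (i + 1) ≤ 1 := by rw [← ht₁m]; exact hmono₁ _ _ h le_rfl
        have h6 : ContDiffOn ℝ 1 (fun s : ℝ => γ₁ (2 * s + 0)) (Icc (t₁ i / 2) (t₁ (i + 1) / 2)) := by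
          refine (hC₁ i (by omega)).comp (f := fun s : ℝ => 2 * s + 0) (by fun_prop) ?_
          intro s hs
          constructor
          · have := hs.1; simp only; linarith
          · have := hs.2; simp only; linarith
        refine h6.congr ?_
        intro s hs
        apply hγl
        have := hs.2
        linarith
      · have key : ∀ j, j < m₂ → ContDiffOn ℝ 1 γ (Icc ((1 + t₂ j) / 2) ((1 + t₂ (j + 1)) / 2)) := by
          intro j hj
          have h5 : 0 ≤ t₂ j := by rw [← ht₂0]; exact hmono₂ _ _ (by omega) (by omega)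
          have h6 : ContDiffOn ℝ 1 (fun s : ℝ => γ₂ (2 * s + (-1)))
              (Icc ((1 + t₂ j) / 2) ((1 + t₂ (j + 1)) / 2)) := by
            refine (hC₂ j hj).comp (f := fun s : ℝ => 2 * s + (-1)) (by fun_prop) ?_
            intro s hs
            constructor
            · have := hs.1; simp only; linarith
            · have := hs.2; simp only; linarith
          refine h6.congr ?_
          intro s hs
          apply hγr
          have := hs.1
          linarith
        by_cases h' : i ≤ m₁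
        · have hi' : i = m₁ := by omega
          rw [if_pos h', if_neg h, hi', ht₁m]
          have h3 := key 0 (by omega)
          have h4 : m₁ + 1 - m₁ = 0 + 1 := by omega
          rw [h4]
          rw [ht₂0] at h3
          simpa using h3
        · rw [if_neg h', if_neg h]
          have h3 := key (i - m₁) (by omega)
          have h4 : i + 1 - m₁ = i - m₁ + 1 := by omega
          rw [h4]
          exact h3
  · intro s hs
    by_cases h : s ≤ 1 / 2
    · rw [hγl s h]
      apply hγ₁
      constructor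
      · have := hs.1; linarith
      · linarith
    · rw [hγr s (by linarith)]
      apply hγ₂
      constructor
      · linarith
      · have := hs.2; linarith
  · rw [hγl 0 (by norm_num)]; norm_num; exact hx
  · rw [hγr 1 (by norm_num)]; norm_num; exact hz
  · unfold kobayashiLength
    have hae : (Ioo (0 : ℝ) 1 : Set ℝ) =ᵐ[volume] (Ioo (0 : ℝ) (1 / 2) ∪ Ioo (1 / 2 : ℝ) 1 : Set ℝ) := by
      have h1 : (Ioo (0 : ℝ) (1 / 2) ∪ Ioo (1 / 2 : ℝ) 1 : Set ℝ) = Ioo (0 : ℝ) 1 \ {1 / 2} := by
        ext x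
        simp only [mem_union, mem_Ioo, Set.mem_sdiff, mem_singleton_iff]
        constructor
        · rintro (⟨h1, h2⟩ | ⟨h1, h2⟩)
          · exact ⟨⟨h1, by linarith⟩, h2.ne⟩
          · exact ⟨⟨by linarith, h2⟩, h1.ne'⟩
        · rintro ⟨⟨h1, h2⟩, h3⟩
          rcases lt_or_gt_of_ne h3 with h | h
          · left; exact ⟨h1, h⟩
          · right; exact ⟨h, h2⟩
      rw [h1]
      exact (sdiff_null_ae_eq_self (by simp)).symm
    rw [setLIntegral_congr hae, lintegral_union measurableSet_Ioo]
    · apply add_le_add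
      · calc ∫⁻ s in Ioo (0 : ℝ) (1 / 2), kobayashiMetric Ω (γ s) (deriv γ s)
            = ∫⁻ s in Ioo (0 : ℝ) (1 / 2), kobayashiMetric Ω (γ₁ (2 * s + 0))
                (deriv (fun y => γ₁ (2 * y + 0)) s) := by
              apply setLIntegral_congr_fun measurableSet_Ioo
              intro s hs
              simp only
              have h1 : γ =ᶠ[𝓝 s] fun y => γ₁ (2 * y + 0) := by
                filter_upwards [Iio_mem_nhds hs.2] with y hy
                exact hγl y (le_of_lt hy)
              rw [h1.deriv_eq, hγl s hs.2.le]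
          _ ≤ ∫⁻ x in (fun x : ℝ => 2 * x + 0) '' Ioo (0 : ℝ) (1 / 2),
                kobayashiMetric Ω (γ₁ x) (deriv γ₁ x) :=
              length_reparam (by norm_num) measurableSet_Ioo
          _ ≤ ∫⁻ x in Ioo (0 : ℝ) 1, kobayashiMetric Ω (γ₁ x) (deriv γ₁ x) := by
              apply lintegral_mono_set
              rintro _ ⟨x, hx, rfl⟩
              constructor
              · have := hx.1; simp only; linarith
              · have := hx.2; simp only; linarith
      · calc ∫⁻ s in Ioo (1 / 2 : ℝ) 1, kobayashiMetric Ω (γ s) (deriv γ s)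
            = ∫⁻ s in Ioo (1 / 2 : ℝ) 1, kobayashiMetric Ω (γ₂ (2 * s + (-1)))
                (deriv (fun y => γ₂ (2 * y + (-1))) s) := by
              apply setLIntegral_congr_fun measurableSet_Ioo
              intro s hs
              simp only
              have h1 : γ =ᶠ[𝓝 s] fun y => γ₂ (2 * y + (-1)) := by
                filter_upwards [Ioi_mem_nhds hs.1] with y hy
                exact hγr y (le_of_lt hy)
              rw [h1.deriv_eq, hγr s hs.1.le]
          _ ≤ ∫⁻ x in (fun x : ℝ => 2 * x + (-1)) '' Ioo (1 / 2 : ℝ) 1,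
                kobayashiMetric Ω (γ₂ x) (deriv γ₂ x) :=
              length_reparam (by norm_num) measurableSet_Ioo
          _ ≤ ∫⁻ x in Ioo (0 : ℝ) 1, kobayashiMetric Ω (γ₂ x) (deriv γ₂ x) := by
              apply lintegral_mono_set
              rintro _ ⟨x, hx, rfl⟩
              constructor
              · have := hx.1; simp only; linarith
              · have := hx.2; simp only; linarith
    · rw [Set.disjoint_left]
      intro x hx hx'
      exact absurd hx.2 (not_lt.2 hx'.1.le)

/-- Upper bound of the Kobayashi distance by a smooth curve. -/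
lemma kobayashiDist_le_of_curve {γ : ℝ → Fin n → ℂ} (hγ : ContDiffOn ℝ 1 γ (Icc 0 1))
    (hγΩ : ∀ t ∈ Icc (0 : ℝ) 1, γ t ∈ Ω) {ρ : ℝ}
    (hF : ∀ t ∈ Ioo (0 : ℝ) 1, kobayashiMetric Ω (γ t) (deriv γ t) ≤ ENNReal.ofReal ρ) :
    kobayashiDist Ω (γ 0) (γ 1) ≤ ENNReal.ofReal ρ := by
  refine (kobayashiDist_le (γ := γ) ⟨1, fun i => i, by simp, by simp, ?_, ?_⟩ hγΩ rfl rfl).trans ?_
  · intro i _
    push_cast
    linarith
  · intro i hi
    have : i = 0 := by omega
    subst this
    simpa using hγ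
  · unfold kobayashiLength
    calc ∫⁻ t in Ioo (0 : ℝ) 1, kobayashiMetric Ω (γ t) (deriv γ t)
        ≤ ∫⁻ _ in Ioo (0 : ℝ) 1, ENNReal.ofReal ρ :=
          setLIntegral_mono' measurableSet_Ioo hF
      _ = ENNReal.ofReal ρ := by simp

end Pool.Agent.Kob
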