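import Pool.Agent.Kob.Bounds

open Set MeasureTheory Filter Metric
open scoped ENNReal Topology ComplexConjugate

namespace Pool.Agent.Kob

variable {m N : ℕ}

/-- The domain `{0 < |z₀| < 1, |z_{j+1}| < |z₀|^N}`. -/
def dom (m N : ℕ) : Set (Fin (m + 1) → ℂ) :=
  {z | 0 < ‖z 0‖ ∧ ‖z 0‖ < 1 ∧ ∀ j : Fin m, ‖z j.succ‖ < ‖z 0‖ ^ N}

lemma isOpen_dom : IsOpen (dom m N) := by
  have h : dom m N = {z : Fin (m + 1) → ℂ | 0 < ‖z 0‖} ∩ ({z | ‖z 0‖ < 1} ∩
      ⋂ j : Fin m, {z | ‖z j.succ‖ < ‖z 0‖ ^ N}) := by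
    ext z; simp [dom]
  rw [h]
  refine (isOpen_lt (by fun_prop) (by fun_prop)).inter ((isOpen_lt (by fun_prop)
    (by fun_prop)).inter (isOpen_iInter_of_finite fun j => isOpen_lt (by fun_prop) (by fun_prop)))

lemma norm_lt_one_of_mem {z : Fin (m + 1) → ℂ} (hz : z ∈ dom m N) (i : Fin (m + 1)) :
    ‖z i‖ < 1 := by
  obtain ⟨h0, h1, h2⟩ := hz
  refine Fin.cases h1 (fun j => (h2 j).trans_le (pow_le_one₀ h0.le h1.le)) i

lemma isBounded_dom : Bornology.IsBounded (dom m N) := by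
  refine (Metric.isBounded_closedBall (x := (0 : Fin (m + 1) → ℂ)) (r := 1)).subset ?_
  intro z hz
  rw [mem_closedBall_zero_iff, pi_norm_le_iff_of_nonneg zero_le_one]
  exact fun i => (norm_lt_one_of_mem hz i).le

/-- The covering-like parametrisation of `dom m N`. -/
noncomputable def Psi (m N : ℕ) (q : ℂ × (Fin m → ℂ)) : Fin (m + 1) → ℂ :=
  Fin.cons (Complex.exp q.1) (fun j => Complex.exp (N * q.1) * q.2 j)

lemma Psi_zero (q : ℂ × (Fin m → ℂ)) : Psi m N q 0 = Complex.exp q.1 := rfl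

lemma Psi_succ (q : ℂ × (Fin m → ℂ)) (j : Fin m) :
    Psi m N q j.succ = Complex.exp (N * q.1) * q.2 j := rfl

lemma differentiable_Psi : Differentiable ℂ (Psi m N) := by
  rw [differentiable_pi]
  intro i
  refine Fin.cases ?_ (fun j => ?_) i
  · show Differentiable ℂ (fun q : ℂ × (Fin m → ℂ) => Complex.exp q.1)
    fun_prop
  · show Differentiable ℂ (fun q : ℂ × (Fin m → ℂ) => Complex.exp (N * q.1) * q.2 j)
    fun_prop

lemma contDiff_Psi : ContDiff ℂ 1 (Psi m N) := by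
  rw [contDiff_pi]
  intro i
  refine Fin.cases ?_ (fun j => ?_) i
  · show ContDiff ℂ 1 (fun q : ℂ × (Fin m → ℂ) => Complex.exp q.1)
    fun_prop
  · show ContDiff ℂ 1 (fun q : ℂ × (Fin m → ℂ) => Complex.exp (N * q.1) * q.2 j)
    fun_prop

lemma norm_Psi_zero (q : ℂ × (Fin m → ℂ)) : ‖Psi m N q 0‖ = Real.exp q.1.re := by
  rw [Psi_zero, Complex.norm_exp]

lemma norm_exp_N (ζ : ℂ) : ‖Complex.exp (N * ζ)‖ = Real.exp ζ.re ^ N := by
  rw [Complex.exp_nat_mul, norm_pow, Complex.norm_exp]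

lemma Psi_mem {q : ℂ × (Fin m → ℂ)} (h1 : q.1.re < 0) (h2 : ∀ j, ‖q.2 j‖ < 1) :
    Psi m N q ∈ dom m N := by
  refine ⟨?_, ?_, ?_⟩
  · rw [norm_Psi_zero]; exact Real.exp_pos _
  · rw [norm_Psi_zero]; exact Real.exp_lt_one_iff.2 h1
  · intro j
    rw [norm_Psi_zero, Psi_succ, norm_mul, norm_exp_N]
    have : 0 < Real.exp q.1.re ^ N := by positivity
    calc Real.exp q.1.re ^ N * ‖q.2 j‖ < Real.exp q.1.re ^ N * 1 :=
          mul_lt_mul_of_pos_left (h2 j) this
      _ = _ := mul_one _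

/-- Every point of the domain is in the image of `Psi`. -/
lemma exists_Psi {z : Fin (m + 1) → ℂ} (hz : 0 < ‖z 0‖) :
    Psi m N (Complex.log (z 0), fun j => z j.succ / z 0 ^ N) = z := by
  have h0 : z 0 ≠ 0 := norm_pos_iff.1 hz
  funext i
  refine Fin.cases ?_ (fun j => ?_) i
  · rw [Psi_zero]; exact Complex.exp_log h0
  · rw [Psi_succ]
    simp only
    rw [Complex.exp_nat_mul, Complex.exp_log h0]
    field_simp

lemma isConnected_dom : IsConnected (dom m N) := by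
  have himg : Psi m N '' ({ζ : ℂ | ζ.re < 0} ×ˢ {u : Fin m → ℂ | ∀ j, ‖u j‖ < 1}) = dom m N := by
    apply Subset.antisymm
    · rintro _ ⟨q, ⟨h1, h2⟩, rfl⟩
      exact Psi_mem h1 h2
    · intro z hz
      refine ⟨_, ⟨?_, ?_⟩, exists_Psi (N := N) hz.1⟩
      · show (Complex.log (z 0)).re < 0
        rw [Complex.log_re]
        exact Real.log_neg hz.1 hz.2.1
      · intro j
        simp only
        rw [norm_div, norm_pow, div_lt_one (pow_pos hz.1 N)]
        exact hz.2.2 j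
  rw [← himg]
  refine ⟨?_, ?_⟩
  · refine Set.Nonempty.image _ ⟨(-1, 0), by simp, by simp⟩
  · apply IsPreconnected.image
    · apply Convex.isPreconnected
      apply Convex.prod
      · exact convex_halfSpace_re_lt 0
      · have : {u : Fin m → ℂ | ∀ j, ‖u j‖ < 1} = Set.pi univ (fun _ => ball (0 : ℂ) 1) := by
          ext u; simp
        rw [this]
        exact convex_pi (fun _ _ => convex_ball 0 1)
    · exact (contDiff_Psi.continuous).continuousOn

lemma contDiffOn_g (j : Fin m) :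
    ContDiffOn ℂ 1 (fun z : Fin (m + 1) → ℂ => z j.succ / z 0 ^ N) (dom m N) := by
  apply ContDiffOn.div
  · exact (contDiff_apply ℂ ℂ j.succ).contDiffOn
  · exact ((contDiff_apply ℂ ℂ (0 : Fin (m + 1))).pow N).contDiffOn
  · intro z hz
    exact pow_ne_zero _ (norm_pos_iff.1 hz.1)

lemma norm_g_lt {z : Fin (m + 1) → ℂ} (hz : z ∈ dom m N) (j : Fin m) :
    ‖z j.succ / z 0 ^ N‖ < 1 := by
  rw [norm_div, norm_pow, div_lt_one (pow_pos hz.1 N)]
  exact hz.2.2 j

lemma dom_dist_hlog (z w : Fin (m + 1) → ℂ) :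
    ENNReal.ofReal |hlog (w 0) - hlog (z 0)| ≤ kobayashiDist (dom m N) z w :=
  dist_ge_hlog isOpen_dom (g := fun z : Fin (m + 1) → ℂ => z 0)
    (contDiff_apply ℂ ℂ (0 : Fin (m + 1))).contDiffOn
    (fun z hz => hz.2.1) (fun z hz => norm_pos_iff.1 hz.1) z w

lemma dom_dist_hdisc (j : Fin m) (z w : Fin (m + 1) → ℂ) :
    ENNReal.ofReal |hdisc (w j.succ / w 0 ^ N) - hdisc (z j.succ / z 0 ^ N)| ≤
      kobayashiDist (dom m N) z w :=
  dist_ge_hdisc isOpen_dom (g := fun z : Fin (m + 1) → ℂ => z j.succ / z 0 ^ N)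
    (contDiffOn_g j) (fun z hz => norm_g_lt hz j) z w

/-- Kobayashi–Cauchy sequences in the domain converge (in the Euclidean sense) to a point of the
domain. -/
lemma cauchy_limit {x : ℕ → Fin (m + 1) → ℂ} (hx : ∀ i, x i ∈ dom m N)
    (hC : ∀ ε : ℝ, 0 < ε → ∃ K, ∀ i ≥ K, ∀ j ≥ K,
      kobayashiDist (dom m N) (x i) (x j) ≤ ENNReal.ofReal ε) :
    ∃ y ∈ dom m N, Tendsto x atTop (𝓝 y) := by
  have hcs : CauchySeq x := by
    rw [Metric.cauchySeq_iff']
    intro ε hε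
    obtain ⟨K, hK⟩ := hC (ε / 3) (by positivity)
    refine ⟨K, fun i hi => ?_⟩
    have h1 := dist_ge_norm isOpen_dom (fun z hz i => norm_lt_one_of_mem (m := m) (N := N) hz i)
      (x i) (x K)
    have h2 := hK i hi K le_rfl
    have h3 : ENNReal.ofReal ‖x K - x i‖ ≤ ENNReal.ofReal (2 * (ε / 3)) := by
      refine h1.trans ?_
      rw [ENNReal.ofReal_mul (by norm_num)]
      simp only [ENNReal.ofReal_ofNat]
      gcongr
    rw [ENNReal.ofReal_le_ofReal_iff (by positivity)] at h3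
    rw [dist_comm, dist_eq_norm]
    linarith
  obtain ⟨y, hy⟩ := cauchySeq_tendsto_of_complete hcs
  refine ⟨y, ?_, hy⟩
  obtain ⟨K, hK⟩ := hC 1 one_pos
  have hy0 : Tendsto (fun i => ‖x i 0‖) atTop (𝓝 ‖y 0‖) :=
    ((tendsto_pi_nhds.1 hy) 0).norm
  -- bounds on `|x i 0|`
  set a := hlog (x K 0) with ha
  have hlogb : ∀ i ≥ K, Real.exp (2 * (a - 1)) ≤ -Real.log ‖x i 0‖ ∧
      -Real.log ‖x i 0‖ ≤ Real.exp (2 * (a + 1)) := by
    intro i hi
    have h1 := (dom_dist_hlog (m := m) (N := N) (x K) (x i)).trans (hK K le_rfl i hi)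
    rw [ENNReal.ofReal_le_ofReal_iff zero_le_one, abs_le] at h1
    obtain ⟨h2, h3⟩ := h1
    have hpos : 0 < -Real.log ‖x i 0‖ := by
      have := Real.log_neg (hx i).1 (hx i).2.1
      linarith
    have h4 : Real.log (-Real.log ‖x i 0‖) = 2 * hlog (x i 0) := by unfold hlog; ring
    rw [← Real.le_log_iff_exp_le hpos, ← Real.log_le_iff_le_exp hpos, h4]
    constructor <;> linarith
  have hub : ‖y 0‖ ≤ Real.exp (-Real.exp (2 * (a - 1))) := by
    refine le_of_tendsto hy0 ?_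
    filter_upwards [eventually_ge_atTop K] with i hi
    rw [← Real.log_le_iff_le_exp (hx i).1]
    linarith [(hlogb i hi).1]
  have hlb : Real.exp (-Real.exp (2 * (a + 1))) ≤ ‖y 0‖ := by
    refine ge_of_tendsto hy0 ?_
    filter_upwards [eventually_ge_atTop K] with i hi
    rw [← Real.le_log_iff_exp_le (hx i).1]
    linarith [(hlogb i hi).2]
  have hy0pos : 0 < ‖y 0‖ := (Real.exp_pos _).trans_le hlb
  refine ⟨hy0pos, hub.trans_lt (Real.exp_lt_one_iff.2 (by have := Real.exp_pos (2 * (a - 1)); linarith)),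
    ?_⟩
  intro j
  set b := hdisc (x K j.succ / x K 0 ^ N) with hb
  set c := Real.exp (-(2 * (b + 1))) with hc
  have hgb : ∀ i ≥ K, ‖x i j.succ‖ ^ 2 ≤ (1 - c) * (‖x i 0‖ ^ N) ^ 2 := by
    intro i hi
    have h1 := (dom_dist_hdisc (m := m) (N := N) j (x K) (x i)).trans (hK K le_rfl i hi)
    rw [ENNReal.ofReal_le_ofReal_iff zero_le_one, abs_le] at h1
    obtain ⟨h2, h3⟩ := h1
    have hlt := norm_g_lt (hx i) j
    set g := x i j.succ / x i 0 ^ N with hg
    have hpos : 0 < 1 - ‖g‖ ^ 2 := by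
      have := norm_nonneg g
      nlinarith
    have h4 : Real.log (1 - ‖g‖ ^ 2) = -(2 * hdisc g) := by unfold hdisc; ring
    have h5 : c ≤ 1 - ‖g‖ ^ 2 := by
      rw [hc, ← Real.le_log_iff_exp_le hpos, h4]
      linarith
    have h6 : ‖x i j.succ‖ = ‖g‖ * ‖x i 0‖ ^ N := by
      rw [hg, norm_div, norm_pow]
      have := pow_pos (hx i).1 N
      field_simp
    rw [h6, mul_pow]
    apply mul_le_mul_of_nonneg_right _ (by positivity)
    linarith
  have hlim : ‖y j.succ‖ ^ 2 ≤ (1 - c) * (‖y 0‖ ^ N) ^ 2 := by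
    refine le_of_tendsto_of_tendsto (f := fun i => ‖x i j.succ‖ ^ 2)
      (g := fun i => (1 - c) * (‖x i 0‖ ^ N) ^ 2) (b := atTop) ?_ ?_ ?_
    · exact (((tendsto_pi_nhds.1 hy) j.succ).norm).pow 2
    · exact ((hy0.pow N).pow 2).const_mul _
    · filter_upwards [eventually_ge_atTop K] with i hi
      exact hgb i hi
  have hcpos : 0 < c := Real.exp_pos _
  have hpN : 0 < ‖y 0‖ ^ N := pow_pos hy0pos N
  have h7 : ‖y j.succ‖ ^ 2 < (‖y 0‖ ^ N) ^ 2 := by
    have : 0 < (‖y 0‖ ^ N) ^ 2 := by positivity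
    nlinarith
  exact lt_of_pow_lt_pow_left₀ 2 hpN.le h7

lemma complete_of_seq {X : Type*} [MetricSpace X] (k : X → X → ℝ) (hk : ∀ z w, dist z w = k z w)
    (h : ∀ x : ℕ → X, (∀ ε : ℝ, 0 < ε → ∃ K, ∀ i ≥ K, ∀ j ≥ K, k (x i) (x j) < ε) →
      ∃ y, ∀ ε : ℝ, 0 < ε → ∃ K, ∀ i ≥ K, k (x i) y < ε) : CompleteSpace X := by
  apply Metric.complete_of_cauchySeq_tendsto
  intro x hx
  rw [Metric.cauchySeq_iff] at hx
  obtain ⟨y, hy⟩ := h x (fun ε hε => by
    obtain ⟨K, hK⟩ := hx ε hε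
    exact ⟨K, fun i hi j hj => by rw [← hk]; exact hK i hi j hj⟩)
  refine ⟨y, ?_⟩
  rw [Metric.tendsto_atTop]
  intro ε hε
  obtain ⟨K, hK⟩ := hy ε hε
  exact ⟨K, fun i hi => by rw [hk]; exact hK i hi⟩

lemma kobayashiComplete_dom : KobayashiComplete (dom m N) := by
  have hne : ∀ z w : dom m N, kobayashiDist (dom m N) z w ≠ ⊤ := fun z w =>
    kobayashiDist_ne_top isOpen_dom isConnected_dom.isPreconnected z.2 w.2
  let d : MetricSpace (dom m N) := 
    { dist := fun z w => (kobayashiDist (dom m N) z w).toReal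
      dist_self := fun z => by rw [kobayashiDist_self isOpen_dom z.2]; rfl
      dist_comm := fun z w => by rw [kobayashiDist_symm]
      dist_triangle := fun x y z => by
        rw [← ENNReal.toReal_add (hne x y) (hne y z)]
        exact ENNReal.toReal_mono (ENNReal.add_ne_top.2 ⟨hne x y, hne y z⟩)
          (kobayashiDist_triangle _ _ _)
      eq_of_dist_eq_zero := fun {z w} h => by
        have h1 : kobayashiDist (dom m N) z w = 0 := by
          rcases (ENNReal.toReal_eq_zero_iff _).1 h with h | h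
          · exact h
          · exact absurd h (hne z w)
        have h2 := dist_ge_norm isOpen_dom
          (fun z hz i => norm_lt_one_of_mem (m := m) (N := N) hz i) (z : Fin (m + 1) → ℂ) w
        rw [h1, mul_zero, nonpos_iff_eq_zero, ENNReal.ofReal_eq_zero] at h2
        have h3 : ‖(w : Fin (m + 1) → ℂ) - z‖ = 0 := le_antisymm h2 (norm_nonneg _)
        rw [norm_eq_zero, sub_eq_zero] at h3
        exact Subtype.ext h3.symm }
  refine ⟨d, ?_, ?_⟩
  · intro z w
    exact ENNReal.ofReal_toReal (hne z w)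
  · refine @complete_of_seq (dom m N) d (fun z w => (kobayashiDist (dom m N) z w).toReal)
      (fun _ _ => rfl) ?_
    intro x hx
    have hle : ∀ (z w : dom m N) (ε : ℝ), (kobayashiDist (dom m N) z w).toReal < ε →
        kobayashiDist (dom m N) z w ≤ ENNReal.ofReal ε := by
      intro z w ε h
      rw [← ENNReal.ofReal_toReal (hne z w)]
      exact ENNReal.ofReal_le_ofReal h.le
    obtain ⟨y, hy, hlim⟩ := cauchy_limit (x := fun i => (x i : Fin (m + 1) → ℂ))
      (fun i => (x i).2) (fun ε hε => by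
        obtain ⟨K, hK⟩ := hx ε hε
        exact ⟨K, fun i hi j hj => hle _ _ _ (hK i hi j hj)⟩)
    refine ⟨⟨y, hy⟩, ?_⟩
    intro ε hε
    have h1 := dist_tendsto_zero isOpen_dom hy hlim (ε / 2) (by positivity)
    obtain ⟨K, hK⟩ := eventually_atTop.1 h1
    refine ⟨K, fun i hi => ?_⟩
    have h2 := ENNReal.toReal_mono ENNReal.ofReal_ne_top (hK i hi)
    rw [ENNReal.toReal_ofReal (by positivity)] at h2
    show (kobayashiDist (dom m N) (x i) y).toReal < ε
    linarith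

end Pool.Agent.Kob
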