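import Pool.Agent.Kob.Volume

open Set MeasureTheory Filter Metric
open scoped ENNReal Topology ComplexConjugate

namespace Pool.Agent.Kob

variable {m N : ℕ}

lemma not_submean {p C r₀ r r' q β : ℝ} (hr : 0 < r) (hr0 : r < r₀) (hr' : 0 < r')
    (hr'r : r' < r) (hq : q < 2)
    (hβ : ∀ t : ℝ, 0 < t → ∀ x : ℝ, Real.exp (-(t * Real.exp (2 * r))) < x →
      x < Real.exp (-(t * Real.exp (-(2 * r)))) →
      x ^ (2 * N * m - p + q) ≤ Real.exp (-(β * t)))
    (hpos : 0 < p - (2 + 2 * N * m) * Real.exp (-(2 * r')) + β) :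
    ¬ SubMeanValue (dom m N) p C r₀ := by
  intro h
  set f : (Fin (m + 1) → ℂ) → ℂ := fun z => (z 0)⁻¹ with hf
  have hfd : DifferentiableOn ℂ f (dom m N) := by
    apply DifferentiableOn.inv
    · fun_prop
    · intro z hz
      exact norm_pos_iff.1 hz.1
  set ρ : ℝ := (r' + r) / 2 with hρ
  have hρ1 : r' < ρ := by rw [hρ]; linarith
  have hρ2 : ρ < r := by rw [hρ]; linarith
  have hρ0 : 0 < ρ := hr'.trans hρ1
  set c : ℝ := min (1 / 2) (ρ / 2) with hc
  have hc0 : 0 < c := by positivity
  have hc1 : c ≤ 1 / 2 := min_le_left _ _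
  have hc2 : c ≤ ρ / 2 := min_le_right _ _
  set E : ℝ := Real.exp (-(2 * r')) with hE
  have hE0 : 0 < E := Real.exp_pos _
  have hE1 : E < 1 := Real.exp_lt_one_iff.2 (by linarith)
  set κ : ℝ := Real.pi / 16 * (c ^ 2 * Real.pi / 4 ^ N) ^ m with hκ
  have hκ0 : 0 < κ := by positivity
  set γ : ℝ := p - (2 + 2 * N * m) * E + β with hγ
  -- the key inequality for large `t`
  have key : ∀ t : ℝ, 0 < t → Real.pi ≤ 2 * (ρ - r') * t * E → Real.log 2 ≤ t * (1 - E) →
      κ * Real.exp (γ * t) ≤ |C| * (Real.pi ^ m * (Kq q).toReal) := by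
    intro t ht ht1 ht2
    set B := kobayashiBall (dom m N) (ctr m N t) r with hB
    set R : ℝ := Real.exp (-(t * E)) with hR
    have hR0 : 0 < R := Real.exp_pos _
    have hRt : Real.exp (-t) ≤ R / 2 := by
      rw [le_div_iff₀ (by norm_num : (0 : ℝ) < 2)]
      calc Real.exp (-t) * 2 = Real.exp (-t + Real.log 2) := by
            rw [Real.exp_add, Real.exp_log (by norm_num)]
        _ ≤ Real.exp (-(t * E)) := Real.exp_le_exp.2 (by linarith)
    have hlow : ENNReal.ofReal (κ * R ^ (2 + 2 * N * m)) ≤ volume B := by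
      apply volume_lower hR0 hc0
      intro w h1 h2 h3
      exact inner_containment hr' hρ1 hρ2 hc1 hc2 ht ht1 (hRt.trans h1) h2 h3
    have hup : ∫⁻ w in B, ENNReal.ofReal (‖(w 0)⁻¹‖ ^ p) ≤
        ENNReal.ofReal (Real.pi ^ m * Real.exp (-(β * t))) * Kq q := by
      refine integral_upper (N := N) (R₁ := Real.exp (-(t * Real.exp (2 * r))))
        (R₂ := Real.exp (-(t * Real.exp (-(2 * r))))) (Real.exp_pos _) ?_ ?_ (hβ t ht)
        (Real.exp_pos _).le
      · rw [Real.exp_le_one_iff]
        have := Real.exp_pos (-(2 * r))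
        have : 0 < t * Real.exp (-(2 * r)) := by positivity
        linarith
      · intro w hw
        obtain ⟨h1, h2⟩ := outer_containment hr ht hw
        exact ⟨hw.1, h1, h2⟩
    have hVtop : volume B ≠ ⊤ := by
      have : volume (dom m N) < ⊤ := isBounded_dom.measure_lt_top
      exact ((measure_mono (fun w hw => hw.1)).trans_lt this).ne
    have hV0 : volume B ≠ 0 := by
      intro h0
      rw [h0] at hlow
      have := le_antisymm hlow bot_le
      rw [ENNReal.ofReal_eq_zero] at this
      have : 0 < κ * R ^ (2 + 2 * N * m) := by positivity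
      linarith
    have hsm := h f hfd (ctr m N t) (ctr_mem ht) r hr hr0
    have h1 : ENNReal.ofReal (‖f (ctr m N t)‖ ^ p) * volume B ≤
        ENNReal.ofReal C * ∫⁻ w in B, ENNReal.ofReal (‖f w‖ ^ p) := by
      calc ENNReal.ofReal (‖f (ctr m N t)‖ ^ p) * volume B
          ≤ (ENNReal.ofReal C / volume B * ∫⁻ w in B, ENNReal.ofReal (‖f w‖ ^ p)) * volume B := by
            gcongr
        _ = (ENNReal.ofReal C / volume B * volume B) *
              ∫⁻ w in B, ENNReal.ofReal (‖f w‖ ^ p) := by ring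
        _ = _ := by rw [ENNReal.div_mul_cancel hV0 hVtop]
    have hfc : ‖f (ctr m N t)‖ ^ p = Real.exp (p * t) := by
      rw [hf]
      simp only
      rw [norm_inv, norm_ctr_zero, ← Real.exp_neg, neg_neg, ← Real.exp_mul, mul_comm]
    rw [hfc] at h1
    have h2 : ENNReal.ofReal (Real.exp (p * t) * (κ * R ^ (2 + 2 * N * m))) ≤
        ENNReal.ofReal (|C| * (Real.pi ^ m * Real.exp (-(β * t)) * (Kq q).toReal)) := by
      calc ENNReal.ofReal (Real.exp (p * t) * (κ * R ^ (2 + 2 * N * m)))
          = ENNReal.ofReal (Real.exp (p * t)) * ENNReal.ofReal (κ * R ^ (2 + 2 * N * m)) :=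
            ENNReal.ofReal_mul (Real.exp_pos _).le
        _ ≤ ENNReal.ofReal (Real.exp (p * t)) * volume B := by gcongr
        _ ≤ ENNReal.ofReal C * ∫⁻ w in B, ENNReal.ofReal (‖f w‖ ^ p) := h1
        _ ≤ ENNReal.ofReal |C| *
              (ENNReal.ofReal (Real.pi ^ m * Real.exp (-(β * t))) * Kq q) := by
            apply mul_le_mul' (ENNReal.ofReal_le_ofReal (le_abs_self C)) hup
        _ = ENNReal.ofReal (|C| * (Real.pi ^ m * Real.exp (-(β * t)) * (Kq q).toReal)) := by
            rw [ENNReal.ofReal_mul (abs_nonneg C),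
              ENNReal.ofReal_mul (p := Real.pi ^ m * Real.exp (-(β * t))) (by positivity),
              ENNReal.ofReal_toReal (Kq_lt_top hq).ne]
    rw [ENNReal.ofReal_le_ofReal_iff (by positivity)] at h2
    have h3 : R ^ (2 + 2 * N * m) = Real.exp (-((2 + 2 * N * m) * E * t)) := by
      rw [hR, ← Real.exp_nat_mul]
      congr 1
      push_cast
      ring
    rw [h3] at h2
    have h4 : Real.exp (p * t) * (κ * Real.exp (-((2 + 2 * N * m) * E * t))) * Real.exp (β * t) =
        κ * Real.exp (γ * t) := by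
      have : Real.exp (γ * t) =
          Real.exp (p * t) * Real.exp (-((2 + 2 * N * m) * E * t)) * Real.exp (β * t) := by
        rw [← Real.exp_add, ← Real.exp_add]
        congr 1
        rw [hγ]
        ring
      rw [this]; ring
    have h5 : |C| * (Real.pi ^ m * Real.exp (-(β * t)) * (Kq q).toReal) * Real.exp (β * t) =
        |C| * (Real.pi ^ m * (Kq q).toReal) := by
      have : Real.exp (-(β * t)) * Real.exp (β * t) = 1 := by
        rw [← Real.exp_add]; simp
      calc |C| * (Real.pi ^ m * Real.exp (-(β * t)) * (Kq q).toReal) * Real.exp (β * t)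
          = |C| * (Real.pi ^ m * (Kq q).toReal) * (Real.exp (-(β * t)) * Real.exp (β * t)) := by
            ring
        _ = _ := by rw [this, mul_one]
    rw [← h4, ← h5]
    exact mul_le_mul_of_nonneg_right h2 (Real.exp_pos _).le
  -- conclude
  have hlim : Tendsto (fun t : ℝ => κ * Real.exp (γ * t)) atTop atTop :=
    (Real.tendsto_exp_atTop.comp (tendsto_id.const_mul_atTop hpos)).const_mul_atTop hκ0
  have hev1 : ∀ᶠ t : ℝ in atTop, Real.pi ≤ 2 * (ρ - r') * t * E := by
    have hpos' : 0 < 2 * (ρ - r') * E := by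
      have : 0 < ρ - r' := by linarith
      positivity
    filter_upwards [(tendsto_id.const_mul_atTop hpos').eventually_ge_atTop Real.pi] with t ht
    simp only [id] at ht
    linarith
  have hev2 : ∀ᶠ t : ℝ in atTop, Real.log 2 ≤ t * (1 - E) := by
    have hpos' : 0 < 1 - E := by linarith
    filter_upwards [(tendsto_id.const_mul_atTop hpos').eventually_ge_atTop (Real.log 2)] with t ht
    simp only [id] at ht
    linarith
  obtain ⟨t, h1, h2, h3, h4⟩ := (((eventually_gt_atTop (0 : ℝ)).and (hev1.and (hev2.and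
    (hlim.eventually_gt_atTop (|C| * (Real.pi ^ m * (Kq q).toReal)))))).exists)
  exact absurd (key t h1 h2 h3) (not_le.2 h4)

/-- **Main theorem.** -/
theorem main (n : ℕ) (hn : 1 ≤ n) (p : ℝ) (hp : 0 < p) (hnp : 2 ≤ n ∨ p < 4) :
    ∃ Ω : Set (Fin n → ℂ), IsOpen Ω ∧ IsConnected Ω ∧ Bornology.IsBounded Ω ∧
      KobayashiComplete Ω ∧ ¬ ∃ C r₀ : ℝ, 0 < C ∧ 0 < r₀ ∧ SubMeanValue Ω p C r₀ := by
  obtain ⟨m, rfl⟩ : ∃ m, n = m + 1 := ⟨n - 1, by omega⟩
  set N : ℕ := ⌈p⌉₊ with hN
  have hNp : p ≤ N := Nat.le_ceil p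
  refine ⟨dom m N, isOpen_dom, isConnected_dom, isBounded_dom, kobayashiComplete_dom, ?_⟩
  rintro ⟨C, r₀, hC, hr₀, h⟩
  by_cases hcase : p - 2 * N * m < 2
  · -- the exponent `2Nm - p + q` is nonnegative for `q` close to `2`
    set r : ℝ := r₀ / 2 with hr
    have hr0 : 0 < r := by positivity
    set E : ℝ := Real.exp (-(2 * r)) with hE
    have hE0 : 0 < E := Real.exp_pos _
    have hE1 : E < 1 := Real.exp_lt_one_iff.2 (by linarith)
    set δ : ℝ := p * (1 - E) with hδ
    have hδ0 : 0 < δ := mul_pos hp (by linarith)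
    set q : ℝ := max (p - 2 * N * m) (2 - δ / 2) with hq
    have hq2 : q < 2 := max_lt hcase (by linarith)
    have hq1 : 0 ≤ 2 * N * m - p + q := by
      have := le_max_left (p - 2 * N * m) (2 - δ / 2)
      linarith
    have hq3 : 2 - q ≤ δ / 2 := by
      have := le_max_right (p - 2 * N * m) (2 - δ / 2)
      linarith
    -- choose `r'`
    have hcont : Tendsto (fun x : ℝ => (2 + 2 * N * m) * (Real.exp (-(2 * x)) - E)) (𝓝[<] r)
        (𝓝 0) := by
      have h1 : Continuous (fun x : ℝ => (2 + 2 * N * m) * (Real.exp (-(2 * x)) - E)) := by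
        fun_prop
      have h2 := h1.tendsto r
      simp only [← hE, sub_self, mul_zero] at h2
      exact h2.mono_left nhdsWithin_le_nhds
    obtain ⟨r', h1, h2, h3⟩ := (((hcont.eventually_lt_const (show (0 : ℝ) < δ / 2 by positivity)).and
      ((eventually_mem_nhdsWithin : ∀ᶠ x in 𝓝[<] r, x ∈ Iio r).and
        (eventually_nhdsWithin_of_eventually_nhds (eventually_gt_nhds hr0)))).exists)
    refine not_submean (β := (2 * N * m - p + q) * E) hr0 (by linarith) h3 h2 hq2 ?_ ?_ h
    · intro t ht x hx1 hx2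
      have hx0 : 0 < x := (Real.exp_pos _).trans hx1
      calc x ^ (2 * N * m - p + q) ≤
            (Real.exp (-(t * Real.exp (-(2 * r))))) ^ (2 * N * m - p + q) :=
            Real.rpow_le_rpow hx0.le hx2.le hq1
        _ = Real.exp (-((2 * N * m - p + q) * E * t)) := by
            rw [← Real.exp_mul]
            congr 1
            rw [hE]
            ring
    · have h4 : (2 - q) * E < δ / 2 := by
        have : 0 < 2 - q := by linarith
        nlinarith
      have h5 : p - (2 + 2 * N * m) * Real.exp (-(2 * r')) + (2 * N * m - p + q) * E =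
          δ - (2 + 2 * N * m) * (Real.exp (-(2 * r')) - E) - (2 - q) * E := by
        rw [hδ]; ring
      rw [h5]
      linarith
  · -- here `m = 0` and `2 ≤ p < 4`
    have hm : m = 0 := by
      by_contra hm
      have h1 : (1 : ℝ) ≤ m := by exact_mod_cast Nat.one_le_iff_ne_zero.2 hm
      apply hcase
      have h2 : (N : ℝ) * 1 ≤ N * m := mul_le_mul_of_nonneg_left h1 (Nat.cast_nonneg N)
      nlinarith
    subst hm
    have hp4 : p < 4 := by
      rcases hnp with h | h
      · omega
      · exact h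
    have hp2 : 2 ≤ p := by simpa using hcase
    -- choose `r`
    have hc1 : Tendsto (fun x : ℝ => Real.exp (2 * x) * (p - 2)) (𝓝[>] 0) (𝓝 (p - 2)) := by
      have h1 : Continuous (fun x : ℝ => Real.exp (2 * x) * (p - 2)) := by fun_prop
      have h2 := h1.tendsto 0
      simp only [mul_zero, Real.exp_zero, one_mul] at h2
      exact h2.mono_left nhdsWithin_le_nhds
    obtain ⟨r, hr1, hr0, hr2⟩ := (((hc1.eventually_lt_const (show p - 2 < 2 by linarith)).and
      ((eventually_mem_nhdsWithin : ∀ᶠ x in 𝓝[>] (0 : ℝ), x ∈ Ioi (0 : ℝ)).and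
        (eventually_nhdsWithin_of_eventually_nhds (eventually_lt_nhds hr₀)))).exists)
    have hr0' : 0 < r := hr0
    have hr2' : r < r₀ := hr2
    set X : ℝ := Real.exp (2 * r) with hX
    have hX1 : 1 < X := Real.one_lt_exp_iff.2 (by linarith)
    have hXinv : Real.exp (-(2 * r)) = X⁻¹ := Real.exp_neg _
    set δ : ℝ := p - 2 * X⁻¹ - (p - 2) * X with hδ
    have hδ0 : 0 < δ := by
      have h1 : δ * X = (X - 1) * (2 - X * (p - 2)) := by
        rw [hδ]
        field_simp
        ring
      have h2 : 0 < δ * X := by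
        rw [h1]
        exact mul_pos (by linarith) (by linarith)
      exact (mul_pos_iff_of_pos_right (by linarith)).1 h2
    set q : ℝ := 2 - δ / (4 * X) with hq
    have hq2 : q < 2 := by
      have : 0 < δ / (4 * X) := by positivity
      linarith
    have hcont : Tendsto (fun x : ℝ => 2 * (Real.exp (-(2 * x)) - X⁻¹)) (𝓝[<] r) (𝓝 0) := by
      have h1 : Continuous (fun x : ℝ => 2 * (Real.exp (-(2 * x)) - X⁻¹)) := by fun_prop
      have h2 := h1.tendsto r
      simp only [hXinv, sub_self, mul_zero] at h2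
      exact h2.mono_left nhdsWithin_le_nhds
    obtain ⟨r', h1, h2, h3⟩ := (((hcont.eventually_lt_const (show (0 : ℝ) < δ / 2 by positivity)).and
      ((eventually_mem_nhdsWithin : ∀ᶠ x in 𝓝[<] r, x ∈ Iio r).and
        (eventually_nhdsWithin_of_eventually_nhds (eventually_gt_nhds hr0')))).exists)
    refine not_submean (β := -((p - q) * X)) hr0' hr2' h3 h2 hq2 ?_ ?_ h
    · intro t ht x hx1 hx2
      have hx0 : 0 < x := (Real.exp_pos _).trans hx1
      have h4 : (2 * (N : ℝ) * ((0 : ℕ) : ℝ) - p + q) = -(p - q) := by push_cast; ring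
      rw [h4]
      calc x ^ (-(p - q)) ≤ (Real.exp (-(t * X))) ^ (-(p - q)) :=
            Real.rpow_le_rpow_of_nonpos (Real.exp_pos _) hx1.le (by linarith)
        _ = Real.exp (-(-((p - q) * X) * t)) := by
            rw [← Real.exp_mul]
            congr 1
            ring
    · have h4 : p - (2 + 2 * (N : ℝ) * ((0 : ℕ) : ℝ)) * Real.exp (-(2 * r')) + -((p - q) * X) =
          δ - 2 * (Real.exp (-(2 * r')) - X⁻¹) - (2 - q) * X := by
        rw [hδ]; push_cast; ring
      have h5 : (2 - q) * X = δ / 4 := by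
        rw [hq]; field_simp; ring
      rw [h4, h5]
      linarith

end Pool.Agent.Kob
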