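import Mathlib

open Set Metric Complex
open scoped Topology ComplexConjugate

namespace Pool.Agent.Kob

/-- Schwarz–Pick at the origin for self-maps of the disc. -/
lemma schwarz_pick_disc {f : ℂ → ℂ} (hf : DifferentiableOn ℂ f (ball 0 1))
    (hmaps : MapsTo f (ball 0 1) (ball 0 1)) : ‖deriv f 0‖ ≤ 1 - ‖f 0‖ ^ 2 := by
  have h0 : (0 : ℂ) ∈ ball (0 : ℂ) 1 := by simp
  set a := f 0 with ha
  have ha1 : ‖a‖ < 1 := by simpa using hmaps h0
  have hden : ∀ w : ℂ, ‖w‖ < 1 → 1 - conj a * w ≠ 0 := by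
    intro w hw h
    have h1 : conj a * w = 1 := by linear_combination -h
    have h2 : ‖conj a * w‖ = 1 := by rw [h1]; simp
    rw [norm_mul, RCLike.norm_conj] at h2
    have := norm_nonneg a
    have := norm_nonneg w
    nlinarith
  have hdisc : ∀ z ∈ ball (0 : ℂ) 1, ‖f z‖ < 1 := fun z hz => by simpa using hmaps hz
  set g : ℂ → ℂ := fun z => (f z - a) / (1 - conj a * f z) with hg
  have hgd : DifferentiableOn ℂ g (ball 0 1) := by
    apply DifferentiableOn.div
    · exact hf.sub_const a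
    · exact (hf.const_mul (conj a)).const_sub 1
    · intro z hz; exact hden _ (hdisc z hz)
  have hg0 : g 0 = 0 := by simp [hg, ha]
  have hgm : MapsTo g (ball 0 1) (closedBall (g 0) 1) := by
    intro z hz
    rw [hg0, mem_closedBall_zero_iff]
    have hz1 := hdisc z hz
    rw [hg]
    simp only [norm_div]
    have hpos : 0 < ‖1 - conj a * f z‖ := norm_pos_iff.2 (hden _ hz1)
    rw [div_le_one hpos]
    apply abs_le_of_sq_le_sq' _ hpos.le |>.2
    have e1 : ‖f z - a‖ ^ 2 = ‖f z‖ ^ 2 - 2 * (conj a * f z).re + ‖a‖ ^ 2 := by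
      rw [← normSq_eq_norm_sq, ← normSq_eq_norm_sq, ← normSq_eq_norm_sq, normSq_apply,
        normSq_apply, normSq_apply]
      simp
      ring
    have e2 : ‖1 - conj a * f z‖ ^ 2 = 1 - 2 * (conj a * f z).re + ‖a‖ ^ 2 * ‖f z‖ ^ 2 := by
      rw [← normSq_eq_norm_sq, ← normSq_eq_norm_sq, ← normSq_eq_norm_sq, normSq_apply,
        normSq_apply, normSq_apply]
      simp
      ring
    rw [e1, e2]
    have h3 : 0 ≤ (1 - ‖a‖ ^ 2) * (1 - ‖f z‖ ^ 2) := by
      apply mul_nonneg
      · have := norm_nonneg a; nlinarith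
      · have := norm_nonneg (f z); nlinarith
    nlinarith
  have h1 := norm_deriv_le_one_of_mapsTo_ball hgd hgm one_pos
  have hfd : HasDerivAt f (deriv f 0) 0 :=
    (hf.differentiableAt (isOpen_ball.mem_nhds h0)).hasDerivAt
  have hgderiv : HasDerivAt g (deriv f 0 / (1 - ‖a‖ ^ 2 : ℝ)) 0 := by
    have h2 := (hfd.sub_const a).div ((hfd.const_mul (conj a)).const_sub 1) (hden _ ha1)
    refine h2.congr_deriv ?_
    rw [← ha]
    have h3 : conj a * a = ((‖a‖ ^ 2 : ℝ) : ℂ) := by
      rw [mul_comm, mul_conj, normSq_eq_norm_sq]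
    have h4 : (1 : ℂ) - conj a * a = ((1 - ‖a‖ ^ 2 : ℝ) : ℂ) := by rw [h3]; push_cast; ring
    have h5 : ((1 - ‖a‖ ^ 2 : ℝ) : ℂ) ≠ 0 := by rw [← h4]; exact hden _ ha1
    rw [h4]
    field_simp
    ring
  rw [hgderiv.deriv, norm_div, norm_real] at h1
  have h6 : 0 < 1 - ‖a‖ ^ 2 := by have := norm_nonneg a; nlinarith
  rw [Real.norm_eq_abs, abs_of_pos h6, div_le_one h6] at h1
  exact h1

/-- Schwarz–Pick at the origin for maps from the disc to the left half plane. -/
lemma schwarz_pick_left {g : ℂ → ℂ} (hg : DifferentiableOn ℂ g (ball 0 1))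
    (hneg : ∀ z ∈ ball (0 : ℂ) 1, (g z).re < 0) : ‖deriv g 0‖ ≤ 2 * (-(g 0).re) := by
  have h0 : (0 : ℂ) ∈ ball (0 : ℂ) 1 := by simp
  set a := g 0 with ha
  have ha1 : a.re < 0 := hneg 0 h0
  have hden : ∀ w : ℂ, w.re < 0 → w + conj a ≠ 0 := by
    intro w hw h
    have h1 := congrArg Complex.re h
    simp at h1
    linarith
  set h : ℂ → ℂ := fun z => (g z - a) / (g z + conj a) with hh
  have hhd : DifferentiableOn ℂ h (ball 0 1) := by
    apply DifferentiableOn.div
    · exact hg.sub_const a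
    · exact hg.add_const (conj a)
    · intro z hz; exact hden _ (hneg z hz)
  have hh0 : h 0 = 0 := by simp [hh, ha]
  have hhm : MapsTo h (ball 0 1) (closedBall (h 0) 1) := by
    intro z hz
    rw [hh0, mem_closedBall_zero_iff]
    have hz1 := hneg z hz
    rw [hh]
    simp only [norm_div]
    have hpos : 0 < ‖g z + conj a‖ := norm_pos_iff.2 (hden _ hz1)
    rw [div_le_one hpos]
    apply abs_le_of_sq_le_sq' _ hpos.le |>.2
    rw [← normSq_eq_norm_sq, ← normSq_eq_norm_sq, normSq_apply, normSq_apply]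
    simp
    nlinarith
  have h1 := norm_deriv_le_one_of_mapsTo_ball hhd hhm one_pos
  have hgd : HasDerivAt g (deriv g 0) 0 :=
    (hg.differentiableAt (isOpen_ball.mem_nhds h0)).hasDerivAt
  have hderiv : HasDerivAt h (deriv g 0 / ((2 * a.re : ℝ) : ℂ)) 0 := by
    have h2 := (hgd.sub_const a).div (hgd.add_const (conj a)) (hden _ ha1)
    refine h2.congr_deriv ?_
    rw [← ha]
    have h4 : a + conj a = ((2 * a.re : ℝ) : ℂ) := by rw [add_conj]
    have h5 : ((2 * a.re : ℝ) : ℂ) ≠ 0 := by rw [← h4]; exact hden _ ha1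
    rw [h4]
    field_simp
    ring
  rw [hderiv.deriv, norm_div, norm_real] at h1
  have h6 : 0 < -(2 * a.re) := by linarith
  rw [Real.norm_eq_abs, abs_of_neg (by linarith), div_le_one h6] at h1
  linarith

/-- Schwarz–Pick at the origin for maps from the disc to the punctured disc. -/
lemma schwarz_pick_punctured {f : ℂ → ℂ} (hf : DifferentiableOn ℂ f (ball 0 1))
    (h0 : ∀ z ∈ ball (0 : ℂ) 1, f z ≠ 0) (h1 : ∀ z ∈ ball (0 : ℂ) 1, ‖f z‖ < 1) :
    ‖deriv f 0‖ ≤ 2 * ‖f 0‖ * (-Real.log ‖f 0‖) := by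
  have hz : (0 : ℂ) ∈ ball (0 : ℂ) 1 := by simp
  have hdf : DifferentiableOn ℂ (deriv f) (ball 0 1) := hf.deriv isOpen_ball
  have hq : DifferentiableOn ℂ (fun z => deriv f z / f z) (ball 0 1) := hdf.div hf h0
  obtain ⟨g, hg0, hg⟩ := (hq.isExactOn_ball).with_val_at 0 (Complex.log (f 0))
  have hfd : ∀ z ∈ ball (0 : ℂ) 1, HasDerivAt f (deriv f z) z := fun z hz =>
    (hf.differentiableAt (isOpen_ball.mem_nhds hz)).hasDerivAt
  have hconst : ∀ z ∈ ball (0 : ℂ) 1, f z * Complex.exp (-g z) = f 0 * Complex.exp (-g 0) := by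
    have hderiv : ∀ z ∈ ball (0 : ℂ) 1, HasDerivAt (fun z => f z * Complex.exp (-g z)) 0 z := by
      intro z hz
      have h2 := (hfd z hz).mul (hg z hz).neg.cexp
      refine h2.congr_deriv ?_
      have := h0 z hz
      field_simp
      ring
    intro z hzz
    have h3 := (convex_ball (0 : ℂ) 1).is_const_of_fderivWithin_eq_zero (𝕜 := ℂ)
      (f := fun z => f z * Complex.exp (-g z))
      (fun z hz => (hderiv z hz).differentiableAt.differentiableWithinAt)
      (fun z hz => by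
        rw [fderivWithin_eq_fderiv (isOpen_ball.uniqueDiffWithinAt hz)
          (hderiv z hz).differentiableAt]
        rw [(hderiv z hz).hasFDerivAt.fderiv]
        ext
        simp)
      hzz hz
    exact h3
  have hexp : ∀ z ∈ ball (0 : ℂ) 1, f z = Complex.exp (g z) := by
    intro z hzz
    have h2 := hconst z hzz
    rw [hg0, Complex.exp_neg, Complex.exp_neg, Complex.exp_log (h0 0 hz),
      mul_inv_cancel₀ (h0 0 hz)] at h2
    have h3 := Complex.exp_ne_zero (g z)
    field_simp at h2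
    exact h2
  have hre : ∀ z ∈ ball (0 : ℂ) 1, (g z).re = Real.log ‖f z‖ := by
    intro z hzz
    rw [hexp z hzz, Complex.norm_exp, Real.log_exp]
  have hneg : ∀ z ∈ ball (0 : ℂ) 1, (g z).re < 0 := by
    intro z hzz
    rw [hre z hzz]
    exact Real.log_neg (norm_pos_iff.2 (h0 z hzz)) (h1 z hzz)
  have h4 := schwarz_pick_left (fun z hz => (hg z hz).differentiableAt.differentiableWithinAt) hneg
  rw [(hg 0 hz).deriv, hre 0 hz, norm_div] at h4
  have hpos : 0 < ‖f 0‖ := norm_pos_iff.2 (h0 0 hz)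
  rw [div_le_iff₀ hpos] at h4
  linarith

end Pool.Agent.Kob
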