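import Pool.Agent.Kob.Defs
import Pool.Agent.Kob.Schwarz

open Set MeasureTheory Filter Metric
open scoped ENNReal Topology ComplexConjugate

namespace Pool.Agent.Kob

variable {n : ℕ} {Ω : Set (Fin n → ℂ)}

lemma kobayashiMetric_le {z v : Fin n → ℂ} {r : ℝ} {φ : ℂ → Fin n → ℂ} (hr : 0 < r)
    (h1 : DifferentiableOn ℂ φ (ball 0 1)) (h2 : MapsTo φ (ball 0 1) Ω) (h3 : φ 0 = z)
    (h4 : (r : ℂ) • deriv φ 0 = v) : kobayashiMetric Ω z v ≤ ENNReal.ofReal r :=
  sInf_le ⟨r, φ, hr, rfl, h1, h2, h3, h4⟩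

lemma le_kobayashiMetric {z v : Fin n → ℂ} {c : ℝ}
    (h : ∀ (r : ℝ) (φ : ℂ → Fin n → ℂ), 0 < r → DifferentiableOn ℂ φ (ball 0 1) →
      MapsTo φ (ball 0 1) Ω → φ 0 = z → (r : ℂ) • deriv φ 0 = v → c ≤ r) :
    ENNReal.ofReal c ≤ kobayashiMetric Ω z v := by
  apply le_sInf
  rintro a ⟨r, φ, hr, rfl, h1, h2, h3, h4⟩
  exact ENNReal.ofReal_le_ofReal (h r φ hr h1 h2 h3 h4)

/-- Pushing a disc by a holomorphic function. -/
lemma push_disc (hΩ : IsOpen Ω) {g : (Fin n → ℂ) → ℂ} (hg : DifferentiableOn ℂ g Ω)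
    {z v : Fin n → ℂ} {r : ℝ} {φ : ℂ → Fin n → ℂ}
    (h1 : DifferentiableOn ℂ φ (ball 0 1)) (h2 : MapsTo φ (ball 0 1) Ω) (h3 : φ 0 = z)
    (h4 : (r : ℂ) • deriv φ 0 = v) :
    DifferentiableOn ℂ (g ∘ φ) (ball 0 1) ∧ (r : ℂ) * deriv (g ∘ φ) 0 = fderiv ℂ g z v := by
  refine ⟨hg.comp h1 h2, ?_⟩
  have h0 : (0 : ℂ) ∈ ball (0 : ℂ) 1 := by simp
  have hφ : HasDerivAt φ (deriv φ 0) 0 :=
    (h1.differentiableAt (isOpen_ball.mem_nhds h0)).hasDerivAt
  have hz : z ∈ Ω := by rw [← h3]; exact h2 h0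
  have hgz : HasFDerivAt g (fderiv ℂ g z) (φ 0) := by
    rw [h3]; exact (hg.differentiableAt (hΩ.mem_nhds hz)).hasFDerivAt
  have h5 := hgz.comp_hasDerivAt 0 hφ
  rw [h5.deriv, ← h4, map_smul, smul_eq_mul]

lemma disc_bound (hΩ : IsOpen Ω) {g : (Fin n → ℂ) → ℂ} (hg : DifferentiableOn ℂ g Ω)
    (hm : ∀ z ∈ Ω, ‖g z‖ < 1) {z v : Fin n → ℂ} (hz : z ∈ Ω) :
    ENNReal.ofReal (‖fderiv ℂ g z v‖ / (1 - ‖g z‖ ^ 2)) ≤ kobayashiMetric Ω z v := by
  apply le_kobayashiMetric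
  intro r φ hr h1 h2 h3 h4
  obtain ⟨h5, h6⟩ := push_disc hΩ hg h1 h2 h3 h4
  have h7 := schwarz_pick_disc h5 (fun w hw => by simpa using hm _ (h2 hw))
  have h8 : (g ∘ φ) 0 = g z := by simp [h3]
  rw [h8] at h7
  have h9 : 0 < 1 - ‖g z‖ ^ 2 := by
    have := hm z hz
    have := norm_nonneg (g z)
    nlinarith
  rw [div_le_iff₀ h9, ← h6, norm_mul, Complex.norm_real, Real.norm_eq_abs, abs_of_pos hr]
  exact mul_le_mul_of_nonneg_left h7 hr.le

lemma punctured_bound (hΩ : IsOpen Ω) {g : (Fin n → ℂ) → ℂ} (hg : DifferentiableOn ℂ g Ω)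
    (hm : ∀ z ∈ Ω, ‖g z‖ < 1) (hm0 : ∀ z ∈ Ω, g z ≠ 0) {z v : Fin n → ℂ} (hz : z ∈ Ω) :
    ENNReal.ofReal (‖fderiv ℂ g z v‖ / (2 * ‖g z‖ * (-Real.log ‖g z‖))) ≤
      kobayashiMetric Ω z v := by
  apply le_kobayashiMetric
  intro r φ hr h1 h2 h3 h4
  obtain ⟨h5, h6⟩ := push_disc hΩ hg h1 h2 h3 h4
  have h7 := schwarz_pick_punctured h5 (fun w hw => hm0 _ (h2 hw)) (fun w hw => hm _ (h2 hw))
  have h8 : (g ∘ φ) 0 = g z := by simp [h3]
  rw [h8] at h7
  have h9 : 0 < 2 * ‖g z‖ * (-Real.log ‖g z‖) := by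
    have h10 := norm_pos_iff.2 (hm0 z hz)
    have := Real.log_neg h10 (hm z hz)
    have : 0 < -Real.log ‖g z‖ := by linarith
    positivity
  rw [div_le_iff₀ h9, ← h6, norm_mul, Complex.norm_real, Real.norm_eq_abs, abs_of_pos hr]
  exact mul_le_mul_of_nonneg_left h7 hr.le

/-- Length bound on one `C¹` piece. -/
lemma piece_bound {h : ℝ → ℝ} {a b : ℝ} (hab : a < b) (hh : ContDiffOn ℝ 1 h (Icc a b)) :
    ENNReal.ofReal |h b - h a| ≤ ∫⁻ t in Ioo a b, ENNReal.ofReal |deriv h t| := by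
  have hud := uniqueDiffOn_Icc hab
  have hcont : ContinuousOn (derivWithin h (Icc a b)) (Icc a b) :=
    hh.continuousOn_derivWithin hud le_rfl
  have hder : ∀ t ∈ Ioo a b, HasDerivAt h (derivWithin h (Icc a b) t) t := by
    intro t ht
    have h1 := (hh.differentiableOn one_ne_zero t (Ioo_subset_Icc_self ht)).hasDerivWithinAt
    exact h1.hasDerivAt (Icc_mem_nhds ht.1 ht.2)
  have hint : IntervalIntegrable (derivWithin h (Icc a b)) volume a b := by
    apply ContinuousOn.intervalIntegrable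
    rwa [uIcc_of_le hab.le]
  have h1 := intervalIntegral.integral_eq_sub_of_hasDerivAt_of_le hab.le hh.continuousOn hder hint
  rw [← h1, intervalIntegral.integral_of_le hab.le, integral_Ioc_eq_integral_Ioo]
  calc ENNReal.ofReal |∫ x in Ioo a b, derivWithin h (Icc a b) x|
      = ‖∫ x in Ioo a b, derivWithin h (Icc a b) x‖ₑ := by
        rw [← Real.norm_eq_abs, ofReal_norm]
    _ ≤ ∫⁻ x in Ioo a b, ‖derivWithin h (Icc a b) x‖ₑ := enorm_integral_le_lintegral_enorm _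
    _ = ∫⁻ t in Ioo a b, ENNReal.ofReal |deriv h t| := by
        apply setLIntegral_congr_fun measurableSet_Ioo
        intro t ht
        simp only [(hder t ht).deriv]
        rw [← Real.norm_eq_abs, ofReal_norm]

/-- A `C¹` function whose differential is dominated by the Kobayashi metric is 1-Lipschitz along
curves. -/
lemma length_bound (hΩ : IsOpen Ω) {u : (Fin n → ℂ) → ℝ} (hu : ContDiffOn ℝ 1 u Ω)
    (hF : ∀ z ∈ Ω, ∀ v, ENNReal.ofReal |fderiv ℝ u z v| ≤ kobayashiMetric Ω z v)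
    {γ : ℝ → Fin n → ℂ} (hγ : IsPiecewiseC1 γ) (hγΩ : ∀ t ∈ Icc (0 : ℝ) 1, γ t ∈ Ω) :
    ENNReal.ofReal |u (γ 1) - u (γ 0)| ≤ kobayashiLength Ω γ := by
  obtain ⟨m, t, ht0, htm, hlt, hC⟩ := hγ
  have hmono : ∀ i j, i ≤ j → j ≤ m → t i ≤ t j := by
    intro i j hij
    induction j, hij using Nat.le_induction with
    | base => intro _; exact le_rfl
    | succ k hk ih => intro hkm; exact (ih (by omega)).trans (hlt k (by omega)).le
  have key : ∀ k, k ≤ m → ENNReal.ofReal |u (γ (t k)) - u (γ 0)| ≤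
      ∫⁻ s in Ioo (0 : ℝ) (t k), kobayashiMetric Ω (γ s) (deriv γ s) := by
    intro k
    induction k with
    | zero => intro _; simp [ht0]
    | succ k ih =>
      intro hk
      have h0k : 0 ≤ t k := by rw [← ht0]; exact hmono 0 k (by omega) (by omega)
      have hk1 : t (k + 1) ≤ 1 := by rw [← htm]; exact hmono _ _ hk le_rfl
      have hkk := hlt k (by omega)
      have hsub : Icc (t k) (t (k + 1)) ⊆ Icc (0 : ℝ) 1 := Icc_subset_Icc h0k hk1
      have hCk := hC k (by omega)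
      have hcomp : ContDiffOn ℝ 1 (u ∘ γ) (Icc (t k) (t (k + 1))) :=
        hu.comp hCk (fun s hs => hγΩ s (hsub hs))
      have h1 := piece_bound hkk hcomp
      have h2 : ∫⁻ s in Ioo (t k) (t (k + 1)), ENNReal.ofReal |deriv (u ∘ γ) s| ≤
          ∫⁻ s in Ioo (t k) (t (k + 1)), kobayashiMetric Ω (γ s) (deriv γ s) := by
        apply setLIntegral_mono' measurableSet_Ioo
        intro s hs
        have hsΩ : γ s ∈ Ω := hγΩ s (hsub (Ioo_subset_Icc_self hs))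
        have hγs : HasDerivAt γ (deriv γ s) s :=
          ((hCk.differentiableOn one_ne_zero s (Ioo_subset_Icc_self hs)).differentiableAt
            (Icc_mem_nhds hs.1 hs.2)).hasDerivAt
        have hus : HasFDerivAt u (fderiv ℝ u (γ s)) (γ s) :=
          ((hu.differentiableOn one_ne_zero).differentiableAt (hΩ.mem_nhds hsΩ)).hasFDerivAt
        have h3 := hus.comp_hasDerivAt s hγs
        rw [h3.deriv]
        exact hF _ hsΩ _
      calc ENNReal.ofReal |u (γ (t (k + 1))) - u (γ 0)|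
          ≤ ENNReal.ofReal (|u (γ (t k)) - u (γ 0)| + |u (γ (t (k + 1))) - u (γ (t k))|) := by
            apply ENNReal.ofReal_le_ofReal
            have := abs_add_le (u (γ (t k)) - u (γ 0)) (u (γ (t (k + 1))) - u (γ (t k)))
            rwa [sub_add_sub_cancel'] at this
        _ ≤ ENNReal.ofReal |u (γ (t k)) - u (γ 0)| +
            ENNReal.ofReal |u (γ (t (k + 1))) - u (γ (t k))| := ENNReal.ofReal_add_le
        _ ≤ (∫⁻ s in Ioo (0 : ℝ) (t k), kobayashiMetric Ω (γ s) (deriv γ s)) +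
            ∫⁻ s in Ioo (t k) (t (k + 1)), kobayashiMetric Ω (γ s) (deriv γ s) :=
            add_le_add (ih (by omega)) (h1.trans h2)
        _ = ∫⁻ s in Ioo (0 : ℝ) (t k) ∪ Ioo (t k) (t (k + 1)),
              kobayashiMetric Ω (γ s) (deriv γ s) := by
            rw [lintegral_union measurableSet_Ioo]
            rw [Set.disjoint_left]
            intro x hx hx'
            exact absurd hx.2 (not_lt.2 hx'.1.le)
        _ ≤ ∫⁻ s in Ioo (0 : ℝ) (t (k + 1)), kobayashiMetric Ω (γ s) (deriv γ s) := by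
            apply lintegral_mono_set
            rintro x (hx | hx)
            · exact ⟨hx.1, hx.2.trans hkk⟩
            · exact ⟨h0k.trans_lt hx.1, hx.2⟩
  have h := key m le_rfl
  rw [htm] at h
  exact h

lemma dist_bound (hΩ : IsOpen Ω) {u : (Fin n → ℂ) → ℝ} (hu : ContDiffOn ℝ 1 u Ω)
    (hF : ∀ z ∈ Ω, ∀ v, ENNReal.ofReal |fderiv ℝ u z v| ≤ kobayashiMetric Ω z v)
    (z w : Fin n → ℂ) :
    ENNReal.ofReal |u w - u z| ≤ kobayashiDist Ω z w := by
  apply le_sInf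
  rintro ℓ ⟨γ, h1, h2, rfl, rfl, rfl⟩
  exact length_bound hΩ hu hF h1 h2

end Pool.Agent.Kob
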