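import Pool.Agent.Kob.Ball

open Set MeasureTheory Filter Metric
open scoped ENNReal Topology ComplexConjugate

namespace Pool.Agent.Kob

variable {m N : ℕ}

/-- The radial integral `∫_{|a|<1} |a|^{-q}`. -/
noncomputable def Kq (q : ℝ) : ℝ≥0∞ := ∫⁻ a in ball (0 : ℂ) 1, ENNReal.ofReal (‖a‖ ^ (-q))

lemma Kq_lt_top {q : ℝ} (hq : q < 2) : Kq q < ⊤ := by
  have h1 : IntegrableOn (fun a : ℂ => ‖a‖ ^ (-q)) (ball 0 1) volume := by
    refine integrableOn_ball_of_norm_le_rpow (C := 1) (α := q) ?_ ?_ ?_ ?_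
    · simp
    · simpa using hq
    · refine ae_of_all _ (fun a => ?_)
      rw [one_mul, Real.norm_eq_abs, abs_of_nonneg (by positivity)]
    · apply Measurable.aestronglyMeasurable
      fun_prop
  have h2 := h1.2
  rw [hasFiniteIntegral_iff_ofReal (ae_of_all _ (fun a => by positivity))] at h2
  exact h2

/-- The fibre volume. -/
lemma volume_fibre (ρ : ℝ) :
    volume {b : Fin m → ℂ | ∀ j, ‖b j‖ < ρ} = (ENNReal.ofReal ρ ^ 2 * NNReal.pi) ^ m := by
  have : {b : Fin m → ℂ | ∀ j, ‖b j‖ < ρ} = Set.pi univ (fun _ => ball (0 : ℂ) ρ) := by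
    ext u; simp
  rw [this, volume_pi_pi]
  simp [Complex.volume_ball]

/-- Slicing. -/
lemma lintegral_slice {A : Set ℂ} (hA : MeasurableSet A) {F : ℂ → ℝ≥0∞} (hF : Measurable F) :
    ∫⁻ w in {w : Fin (m + 1) → ℂ | w 0 ∈ A ∧ ∀ j : Fin m, ‖w j.succ‖ < ‖w 0‖ ^ N}, F (w 0) =
      ∫⁻ a in A, F a * (ENNReal.ofReal (‖a‖ ^ N) ^ 2 * NNReal.pi) ^ m := by
  set e := MeasurableEquiv.piFinSuccAbove (fun _ : Fin (m + 1) => ℂ) 0 with he
  have hmp : MeasurePreserving e (volume : Measure (Fin (m + 1) → ℂ))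
      (volume : Measure (ℂ × (Fin m → ℂ))) :=
    volume_preserving_piFinSuccAbove (fun _ : Fin (m + 1) => ℂ) 0
  set S' : Set (ℂ × (Fin m → ℂ)) := {p | p.1 ∈ A ∧ ∀ j : Fin m, ‖p.2 j‖ < ‖p.1‖ ^ N} with hS'
  have hS'm : MeasurableSet S' := by
    have : S' = (Prod.fst ⁻¹' A) ∩ ⋂ j : Fin m, {p : ℂ × (Fin m → ℂ) | ‖p.2 j‖ < ‖p.1‖ ^ N} := by
      ext p; simp [hS']
    rw [this]
    apply (measurable_fst hA).inter
    apply MeasurableSet.iInter
    intro j
    apply measurableSet_lt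
    · exact ((measurable_pi_apply j).comp measurable_snd).norm
    · exact (measurable_fst.norm).pow_const N
  have hpre : {w : Fin (m + 1) → ℂ | w 0 ∈ A ∧ ∀ j : Fin m, ‖w j.succ‖ < ‖w 0‖ ^ N} =
      e ⁻¹' S' := by
    ext w
    simp [hS', he, MeasurableEquiv.piFinSuccAbove, Fin.insertNthEquiv, Fin.tail]
  have h1 := hmp.setLIntegral_comp_preimage hS'm (f := fun p => F p.1) (hF.comp measurable_fst)
  rw [hpre]
  have h2 : ∀ w : Fin (m + 1) → ℂ, (e w).1 = w 0 := by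
    intro w; simp [he, MeasurableEquiv.piFinSuccAbove, Fin.insertNthEquiv]
  simp only [h2] at h1
  rw [h1, ← lintegral_indicator hS'm, Measure.volume_eq_prod, lintegral_prod,
    ← lintegral_indicator hA]
  · congr 1
    funext a
    by_cases ha : a ∈ A
    · rw [indicator_of_mem ha]
      have h3 : ∀ b : Fin m → ℂ, S'.indicator (fun p => F p.1) (a, b) =
          {b : Fin m → ℂ | ∀ j, ‖b j‖ < ‖a‖ ^ N}.indicator (fun _ => F a) b := by
        intro b
        by_cases hb : ∀ j, ‖b j‖ < ‖a‖ ^ N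
        · rw [indicator_of_mem (show (a, b) ∈ S' from ⟨ha, hb⟩),
            indicator_of_mem (show b ∈ {b : Fin m → ℂ | ∀ j, ‖b j‖ < ‖a‖ ^ N} from hb)]
        · rw [indicator_of_notMem (show (a, b) ∉ S' from fun h => hb h.2),
            indicator_of_notMem (show b ∉ {b : Fin m → ℂ | ∀ j, ‖b j‖ < ‖a‖ ^ N} from hb)]
      simp only [h3]
      rw [lintegral_indicator]
      · rw [setLIntegral_const, volume_fibre]
      · have : {b : Fin m → ℂ | ∀ j, ‖b j‖ < ‖a‖ ^ N} =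
            Set.pi univ (fun _ => ball (0 : ℂ) (‖a‖ ^ N)) := by
          ext u; simp
        rw [this]
        exact MeasurableSet.univ_pi (fun _ => measurableSet_ball)
    · rw [indicator_of_notMem ha]
      have h3 : ∀ b : Fin m → ℂ, S'.indicator (fun p => F p.1) (a, b) = 0 := fun b =>
        indicator_of_notMem (fun h => ha h.1) _
      simp [h3]
  · exact ((hF.comp measurable_fst).indicator hS'm).aemeasurable

/-- Upper bound for the integral over a set contained in `{R₁ < |w₀| < R₂}`. -/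
lemma integral_upper {B : Set (Fin (m + 1) → ℂ)} {R₁ R₂ p q M : ℝ} (hR₁ : 0 < R₁) (hR₂ : R₂ ≤ 1)
    (hB : ∀ w ∈ B, w ∈ dom m N ∧ R₁ < ‖w 0‖ ∧ ‖w 0‖ < R₂)
    (hM : ∀ x : ℝ, R₁ < x → x < R₂ → x ^ (2 * N * m - p + q) ≤ M) (hM0 : 0 ≤ M) :
    ∫⁻ w in B, ENNReal.ofReal (‖(w 0)⁻¹‖ ^ p) ≤ ENNReal.ofReal (Real.pi ^ m * M) * Kq q := by
  set A : Set ℂ := {a | R₁ < ‖a‖ ∧ ‖a‖ < R₂} with hA
  have hAm : MeasurableSet A :=
    (measurableSet_lt measurable_const measurable_norm).inter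
      (measurableSet_lt measurable_norm measurable_const)
  have hF : Measurable (fun a : ℂ => ENNReal.ofReal (‖a⁻¹‖ ^ p)) := by fun_prop
  calc ∫⁻ w in B, ENNReal.ofReal (‖(w 0)⁻¹‖ ^ p)
      ≤ ∫⁻ w in {w : Fin (m + 1) → ℂ | w 0 ∈ A ∧ ∀ j : Fin m, ‖w j.succ‖ < ‖w 0‖ ^ N},
          ENNReal.ofReal (‖(w 0)⁻¹‖ ^ p) := by
        apply lintegral_mono_set
        intro w hw
        obtain ⟨h1, h2, h3⟩ := hB w hw
        exact ⟨⟨h2, h3⟩, h1.2.2⟩
    _ = ∫⁻ a in A, ENNReal.ofReal (‖a⁻¹‖ ^ p) *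
          (ENNReal.ofReal (‖a‖ ^ N) ^ 2 * NNReal.pi) ^ m :=
        lintegral_slice hAm (F := fun a : ℂ => ENNReal.ofReal (‖a⁻¹‖ ^ p)) hF
    _ ≤ ∫⁻ a in A, ENNReal.ofReal (Real.pi ^ m * M) * ENNReal.ofReal (‖a‖ ^ (-q)) := by
        apply setLIntegral_mono' hAm
        intro a ha
        have hapos : 0 < ‖a‖ := hR₁.trans ha.1
        have hpi : (NNReal.pi : ℝ≥0∞) = ENNReal.ofReal Real.pi := by
          rw [← NNReal.coe_real_pi, ENNReal.ofReal_coe_nnreal]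
        rw [hpi, ← ENNReal.ofReal_pow (by positivity), ← ENNReal.ofReal_mul (by positivity),
          ← ENNReal.ofReal_pow (by positivity), ← ENNReal.ofReal_mul (by positivity),
          ← ENNReal.ofReal_mul (by positivity)]
        apply ENNReal.ofReal_le_ofReal
        have h1 := hM ‖a‖ ha.1 ha.2
        have h2 : ‖a⁻¹‖ ^ p * ((‖a‖ ^ N) ^ 2 * Real.pi) ^ m =
            Real.pi ^ m * ‖a‖ ^ (2 * N * m - p + q) * ‖a‖ ^ (-q) := by
          rw [norm_inv, Real.inv_rpow hapos.le, ← Real.rpow_neg hapos.le, mul_pow, ← pow_mul,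
            ← pow_mul, ← Real.rpow_natCast ‖a‖]
          have h3 : ‖a‖ ^ (2 * N * m - p + q) * ‖a‖ ^ (-q) = ‖a‖ ^ (-p) * ‖a‖ ^ (((N * (2 * m) : ℕ)) : ℝ) := by
            rw [← Real.rpow_add hapos, ← Real.rpow_add hapos]
            congr 1
            push_cast
            ring
          calc ‖a‖ ^ (-p) * (‖a‖ ^ (((N * (2 * m) : ℕ)) : ℝ) * Real.pi ^ m)
              = Real.pi ^ m * (‖a‖ ^ (-p) * ‖a‖ ^ (((N * (2 * m) : ℕ)) : ℝ)) := by ring
            _ = _ := by rw [← h3]; ring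
        rw [h2]
        have h4 : 0 ≤ ‖a‖ ^ (-q) := by positivity
        have h5 : 0 ≤ Real.pi ^ m := by positivity
        exact mul_le_mul_of_nonneg_right (mul_le_mul_of_nonneg_left h1 h5) h4
    _ = ENNReal.ofReal (Real.pi ^ m * M) * ∫⁻ a in A, ENNReal.ofReal (‖a‖ ^ (-q)) :=
        lintegral_const_mul _ (by fun_prop)
    _ ≤ ENNReal.ofReal (Real.pi ^ m * M) * Kq q := by
        gcongr
        apply lintegral_mono_set
        intro a ha
        rw [mem_ball_zero_iff]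
        exact ha.2.trans_le hR₂

/-- Lower bound for the volume of a set containing `{R/2 ≤ |w₀| ≤ R, |w_j| ≤ c|w₀|^N}`. -/
lemma volume_lower {B : Set (Fin (m + 1) → ℂ)} {R c : ℝ} (hR : 0 < R) (hc : 0 < c)
    (hB : ∀ w : Fin (m + 1) → ℂ, R / 2 ≤ ‖w 0‖ → ‖w 0‖ ≤ R →
      (∀ j : Fin m, ‖w j.succ‖ ≤ c * ‖w 0‖ ^ N) → w ∈ B) :
    ENNReal.ofReal (Real.pi / 16 * (c ^ 2 * Real.pi / 4 ^ N) ^ m * R ^ (2 + 2 * N * m)) ≤
      volume B := by
  set P : Set (Fin (m + 1) → ℂ) := Set.pi univ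
    (Fin.cons (ball ((3 * R / 4 : ℝ) : ℂ) (R / 4)) (fun _ => ball (0 : ℂ) (c * (R / 2) ^ N)))
    with hP
  have hPB : P ⊆ B := by
    intro w hw
    rw [hP, mem_univ_pi] at hw
    have h0 := hw 0
    rw [Fin.cons_zero, mem_ball, dist_eq_norm] at h0
    have hn : ‖((3 * R / 4 : ℝ) : ℂ)‖ = 3 * R / 4 := by
      rw [Complex.norm_real, Real.norm_eq_abs, abs_of_pos (by positivity)]
    have h1 : R / 2 ≤ ‖w 0‖ := by
      have := norm_sub_norm_le ((3 * R / 4 : ℝ) : ℂ) (w 0)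
      rw [norm_sub_rev, hn] at this
      linarith
    have h2 : ‖w 0‖ ≤ R := by
      have := norm_sub_norm_le (w 0) ((3 * R / 4 : ℝ) : ℂ)
      rw [hn] at this
      linarith
    apply hB w h1 h2
    intro j
    have h3 := hw j.succ
    rw [Fin.cons_succ, mem_ball_zero_iff] at h3
    refine h3.le.trans ?_
    gcongr
  refine le_trans (le_of_eq ?_) (measure_mono hPB)
  rw [hP, volume_pi_pi, Fin.prod_univ_succ]
  simp only [Fin.cons_zero, Fin.cons_succ, Finset.prod_const, Finset.card_univ, Fintype.card_fin,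
    Complex.volume_ball]
  have hpi : (NNReal.pi : ℝ≥0∞) = ENNReal.ofReal Real.pi := by
    rw [← NNReal.coe_real_pi, ENNReal.ofReal_coe_nnreal]
  rw [hpi, ← ENNReal.ofReal_pow (by positivity), ← ENNReal.ofReal_mul (by positivity),
    ← ENNReal.ofReal_pow (by positivity), ← ENNReal.ofReal_mul (by positivity),
    ← ENNReal.ofReal_pow (by positivity), ← ENNReal.ofReal_mul (by positivity)]
  congr 1
  have h5 : ((R / 2) ^ N) ^ 2 = R ^ (2 * N) / 4 ^ N := by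
    rw [div_pow, div_pow, ← pow_mul, ← pow_mul, show (4 : ℝ) = 2 ^ 2 by norm_num, ← pow_mul,
      mul_comm N 2]
  have h4 : (c * (R / 2) ^ N) ^ 2 * Real.pi = c ^ 2 * Real.pi / 4 ^ N * R ^ (2 * N) := by
    rw [mul_pow, h5]
    ring
  rw [h4, mul_pow (c ^ 2 * Real.pi / 4 ^ N) (R ^ (2 * N)) m, ← pow_mul R (2 * N) m, pow_add R 2]
  ring

end Pool.Agent.Kob
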